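import Pool.Agent.Work.MP_76d3fb_an.SmpCK

/-! Weak convergence and compact operators. -/

namespace BGC

open Filter Topology Set

variable {E : Type*} [NormedAddCommGroup E] [NormedSpace ℂ E] {H : Type*}
  [NormedAddCommGroup H] [InnerProductSpace ℂ H] [CompleteSpace H]

theorem proj_norm_le (P : H →L[ℂ] H) (hPs : IsStarProjection P) : ‖P‖ ≤ 1 := by
  refine ContinuousLinearMap.opNorm_le_bound _ zero_le_one fun u => ?_
  rw [one_mul]
  have hsym : ∀ u v : H, inner ℂ (P u) v = inner ℂ u (P v) := hPs.isSelfAdjoint.isSymmetric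
  have hid : P (P u) = P u := by
    have h2 : (P * P) u = P u := by rw [hPs.isIdempotentElem.eq]
    simpa using h2
  by_cases h0 : ‖P u‖ = 0
  · rw [h0]; exact norm_nonneg _
  have h1 : ‖inner ℂ (P u) (P u)‖ = ‖P u‖ ^ 2 := by
    rw [inner_self_eq_norm_sq_to_K]; simp
  rw [hsym u (P u), hid] at h1
  have h2 := norm_inner_le_norm (𝕜 := ℂ) u (P u)
  rw [h1, pow_two] at h2
  exact le_of_mul_le_mul_right h2 (lt_of_le_of_ne (norm_nonneg _) (Ne.symm h0))

theorem compress_L (L : E →L[ℂ] (H →L[ℂ] H)) (P : H →L[ℂ] H) (hPs : IsStarProjection P)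
    (hP : FiniteDimensional ℂ (LinearMap.range P.toLinearMap)) {K : Set E} (V : Ultrafilter K)
    (z : K) (hV : WCv K V z) :
    Tendsto (fun x : K => ‖P * (L x - L z) * P‖) (V : Filter K) (𝓝 0) := by
  obtain ⟨n, b, hb⟩ := compress_coord P hPs hP
  refine squeeze_zero (fun x => norm_nonneg _) (fun x => hb _) ?_
  have hfun : ∀ u v : H, ∃ f : StrongDual ℂ E, ∀ x : E, f x = inner ℂ u (L x v) := by
    intro u v
    refine ⟨(innerSL ℂ u).comp ((ContinuousLinearMap.apply ℂ H v).comp L), fun x => rfl⟩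
  have h0 : (0 : ℝ) = ∑ j : Fin n, ∑ i : Fin n, (0 : ℝ) := by simp
  rw [h0]
  refine tendsto_finsetSum _ fun j _ => tendsto_finsetSum _ fun i _ => ?_
  obtain ⟨f, hf⟩ := hfun (b i) (b j)
  have h1 := ((hV f).sub_const (f z)).norm
  rw [sub_self, norm_zero] at h1
  refine h1.congr fun x => ?_
  rw [hf, hf, sub_apply, inner_sub_right]

theorem comp_small (L : E →L[ℂ] (H →L[ℂ] H)) (c c' : H →L[ℂ] H) (hc : IsCompactOperator c)
    (hc' : IsCompactOperator c') {K : Set E} {D : ℝ} (hD : ∀ x y : K, dist x y ≤ D)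
    (V : Ultrafilter K) (z : K) (hV : WCv K V z) {ε : ℝ} (hε : 0 < ε) :
    ∀ᶠ v : K in (V : Filter K), ‖c' * (L v - L z) * c‖ ≤ ε := by
  have hD0 : 0 ≤ D := dist_nonneg.trans (hD z z)
  set M := ‖L‖ * D with hM
  have hM0 : 0 ≤ M := mul_nonneg (norm_nonneg _) hD0
  set ε1 := ε / (2 * (M * (‖c‖ + ‖c'‖) + 1)) with hε1
  have hε1' : 0 < ε1 := by positivity
  obtain ⟨P, hPs, hPf, hPk⟩ := exists_proj {c, c'}
    (Set.Finite.totallyBounded (Set.toFinite _)) (by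
      rintro k (rfl | hk)
      · exact hc
      · rw [mem_singleton_iff.1 hk]
        exact hc') hε1'
  have hP1 := proj_norm_le P hPs
  have hk1 := hPk c (Or.inl rfl)
  have hk2 := hPk c' (Or.inr rfl)
  have h1 := compress_L L P hPs hPf V z hV
  have h2 : 0 < ε / (2 * (‖c'‖ * ‖c‖ + 1)) := by positivity
  filter_upwards [h1.eventually (gt_mem_nhds h2)] with v hv
  set A := L v - L z with hA
  have hAM : ‖A‖ ≤ M := by
    have e1 : A = L ((v : E) - z) := by rw [hA, map_sub]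
    rw [e1]
    refine (L.le_opNorm _).trans (mul_le_mul_of_nonneg_left ?_ (norm_nonneg _))
    have := hD v z
    rwa [Subtype.dist_eq, dist_eq_norm] at this
  have hsplit : c' * A * c = (c' - P * c' * P) * A * c + P * c' * P * A * (c - P * c * P) +
      P * c' * (P * A * P) * (c * P) := by
    simp only [mul_sub, sub_mul, mul_assoc]
    abel
  rw [hsplit]
  have b1 : ‖(c' - P * c' * P) * A * c‖ ≤ ε1 * M * ‖c‖ := by
    refine (norm_mul_le _ _).trans (mul_le_mul_of_nonneg_right ?_ (norm_nonneg _))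
    exact (norm_mul_le _ _).trans (mul_le_mul hk2 hAM (norm_nonneg _) hε1'.le)
  have hPc : ‖P * c'‖ ≤ ‖c'‖ := by
    refine (norm_mul_le _ _).trans ?_
    calc ‖P‖ * ‖c'‖ ≤ 1 * ‖c'‖ := mul_le_mul_of_nonneg_right hP1 (norm_nonneg _)
      _ = ‖c'‖ := one_mul _
  have hPcP : ‖P * c' * P‖ ≤ ‖c'‖ := by
    refine (norm_mul_le _ _).trans ?_
    calc ‖P * c'‖ * ‖P‖ ≤ ‖c'‖ * 1 := mul_le_mul hPc hP1 (norm_nonneg _) (norm_nonneg _)
      _ = ‖c'‖ := mul_one _
  have hcP : ‖c * P‖ ≤ ‖c‖ := by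
    refine (norm_mul_le _ _).trans ?_
    calc ‖c‖ * ‖P‖ ≤ ‖c‖ * 1 := mul_le_mul_of_nonneg_left hP1 (norm_nonneg _)
      _ = ‖c‖ := mul_one _
  have b2 : ‖P * c' * P * A * (c - P * c * P)‖ ≤ ‖c'‖ * M * ε1 := by
    refine (norm_mul_le _ _).trans ?_
    refine mul_le_mul ((norm_mul_le _ _).trans (mul_le_mul hPcP hAM (norm_nonneg _)
      (norm_nonneg _))) hk1 (norm_nonneg _) (by positivity)
  have b3 : ‖P * c' * (P * A * P) * (c * P)‖ ≤ ‖c'‖ * (ε / (2 * (‖c'‖ * ‖c‖ + 1))) * ‖c‖ := by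
    refine (norm_mul_le _ _).trans ?_
    refine mul_le_mul ((norm_mul_le _ _).trans (mul_le_mul hPc hv.le (norm_nonneg _)
      (norm_nonneg _))) hcP (norm_nonneg _) (by positivity)
  have b4 : ε1 * M * ‖c‖ + ‖c'‖ * M * ε1 ≤ ε / 2 := by
    have e1 : ε1 * M * ‖c‖ + ‖c'‖ * M * ε1 = ε1 * (M * (‖c‖ + ‖c'‖)) := by ring
    rw [e1, hε1, div_mul_eq_mul_div, div_le_iff₀ (by positivity)]
    have : 0 ≤ M * (‖c‖ + ‖c'‖) := by positivity
    nlinarith
  have b5 : ‖c'‖ * (ε / (2 * (‖c'‖ * ‖c‖ + 1))) * ‖c‖ ≤ ε / 2 := by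
    have e1 : ‖c'‖ * (ε / (2 * (‖c'‖ * ‖c‖ + 1))) * ‖c‖ =
        ε * (‖c'‖ * ‖c‖) / (2 * (‖c'‖ * ‖c‖ + 1)) := by ring
    rw [e1, div_le_iff₀ (by positivity)]
    have : 0 ≤ ‖c'‖ * ‖c‖ := by positivity
    nlinarith
  have t1 := norm_add_le ((c' - P * c' * P) * A * c + P * c' * P * A * (c - P * c * P))
    (P * c' * (P * A * P) * (c * P))
  have t2 := norm_add_le ((c' - P * c' * P) * A * c) (P * c' * P * A * (c - P * c * P))
  linarith

end BGC
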