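import Pool.Agent.Work.MP_76d3fb_an.Defs

/-! Two-sided spectral cut-offs of an operator. -/

namespace BGC

open Polynomial

theorem semiconj_cfc {B : Type*} [CStarAlgebra B] {a b y : B} (ha : IsSelfAdjoint a)
    (hb : IsSelfAdjoint b) (h : y * a = b * y) {g : ℝ → ℝ} (hg : Continuous g) :
    y * cfc g a = cfc g b * y := by
  have hpol : ∀ p : ℝ[X], y * aeval a p = aeval b p * y := by
    intro p
    induction p using Polynomial.induction_on with
    | C r =>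
      simp only [aeval_C]
      exact (Algebra.commutes r y).symm
    | add p q hp hq => simp only [map_add, mul_add, add_mul, hp, hq]
    | monomial n r hn =>
      simp only [map_mul, aeval_C, map_pow, aeval_X] at hn ⊢
      rw [pow_succ, pow_succ, ← mul_assoc (algebraMap ℝ B r), ← mul_assoc, hn, mul_assoc,
        h, ← mul_assoc, ← mul_assoc]
  set R : ℝ := max (‖a‖ * ‖(1 : B)‖) (‖b‖ * ‖(1 : B)‖) with hR
  have hsa : ∀ s ∈ spectrum ℝ a, s ∈ Set.Icc (-R) R := fun s hs =>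
    abs_le.1 ((spectrum.norm_le_norm_mul_of_mem hs).trans (le_max_left _ _))
  have hsb : ∀ s ∈ spectrum ℝ b, s ∈ Set.Icc (-R) R := fun s hs =>
    abs_le.1 ((spectrum.norm_le_norm_mul_of_mem hs).trans (le_max_right _ _))
  have key : ∀ ε > 0, ‖y * cfc g a - cfc g b * y‖ ≤ (2 * ‖y‖) * ε := by
    intro ε hε
    obtain ⟨p, hp⟩ := exists_polynomial_near_of_continuousOn (-R) R g hg.continuousOn ε hε
    have e1 : ∀ d : B, IsSelfAdjoint d → (∀ s ∈ spectrum ℝ d, s ∈ Set.Icc (-R) R) →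
        ‖cfc g d - aeval d p‖ ≤ ε := by
      intro d hd hsd
      rw [← cfc_polynomial p d hd, ← cfc_sub g (fun s => p.eval s) d hg.continuousOn
        p.continuous.continuousOn]
      refine norm_cfc_le hε.le fun s hs => ?_
      rw [norm_sub_rev]
      exact (hp s (hsd s hs)).le
    have e2 : y * cfc g a - cfc g b * y =
        y * (cfc g a - aeval a p) - (cfc g b - aeval b p) * y := by
      rw [mul_sub, sub_mul, hpol p]
      abel
    rw [e2]
    refine (norm_sub_le _ _).trans ?_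
    have e3 : ‖y * (cfc g a - aeval a p)‖ ≤ ‖y‖ * ε :=
      (norm_mul_le _ _).trans (mul_le_mul_of_nonneg_left (e1 a ha hsa) (norm_nonneg _))
    have e4 : ‖(cfc g b - aeval b p) * y‖ ≤ ε * ‖y‖ :=
      (norm_mul_le _ _).trans (mul_le_mul_of_nonneg_right (e1 b hb hsb) (norm_nonneg _))
    linarith
  have h0 : ‖y * cfc g a - cfc g b * y‖ ≤ 0 := by
    refine le_of_forall_pos_le_add fun η hη => ?_
    rw [zero_add]
    have h2 : 0 < η / (2 * ‖y‖ + 1) := by positivity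
    refine (key _ h2).trans ?_
    rw [mul_div_assoc', div_le_iff₀ (by positivity)]
    nlinarith [norm_nonneg y]
  exact sub_eq_zero.1 (norm_le_zero_iff.1 h0)

/-- The cut-off ramp. -/
noncomputable def ramp (κ κ' s : ℝ) : ℝ := max 0 (min 1 ((s - κ ^ 2) / (κ' ^ 2 - κ ^ 2)))

noncomputable def gcut (κ κ' s : ℝ) : ℝ := Real.sqrt (ramp κ κ' s)

noncomputable def hcut (κ κ' s : ℝ) : ℝ := Real.sqrt (1 - ramp κ κ' s)

theorem ramp_nonneg (κ κ' s : ℝ) : 0 ≤ ramp κ κ' s := le_max_left _ _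

theorem ramp_le (κ κ' s : ℝ) : ramp κ κ' s ≤ 1 := max_le zero_le_one (min_le_left _ _)

theorem ramp_continuous (κ κ' : ℝ) : Continuous (ramp κ κ') := by
  unfold ramp
  fun_prop

theorem gcut_continuous (κ κ' : ℝ) : Continuous (gcut κ κ') := by
  unfold gcut
  exact (ramp_continuous κ κ').sqrt

theorem hcut_continuous (κ κ' : ℝ) : Continuous (hcut κ κ') := by
  unfold hcut
  exact (continuous_const.sub (ramp_continuous κ κ')).sqrt

theorem ramp_zero {κ κ' s : ℝ} (h0 : 0 ≤ κ) (h1 : κ < κ') (hs : s ≤ κ ^ 2) :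
    ramp κ κ' s = 0 := by
  have h2 : 0 < κ' ^ 2 - κ ^ 2 := by nlinarith
  refine max_eq_left ((min_le_right _ _).trans ?_)
  exact div_nonpos_of_nonpos_of_nonneg (by linarith) h2.le

theorem ramp_one {κ κ' s : ℝ} (h0 : 0 ≤ κ) (h1 : κ < κ') (hs : κ' ^ 2 ≤ s) :
    ramp κ κ' s = 1 := by
  have h2 : 0 < κ' ^ 2 - κ ^ 2 := by nlinarith
  have h3 : 1 ≤ (s - κ ^ 2) / (κ' ^ 2 - κ ^ 2) := by
    rw [le_div_iff₀ h2]
    linarith
  unfold ramp
  rw [min_eq_left h3]
  exact max_eq_right zero_le_one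

theorem gcut_zero {κ κ' s : ℝ} (h0 : 0 ≤ κ) (h1 : κ < κ') (hs : s ≤ κ ^ 2) :
    gcut κ κ' s = 0 := by
  unfold gcut
  rw [ramp_zero h0 h1 hs, Real.sqrt_zero]

theorem gcut_sq (κ κ' s : ℝ) : gcut κ κ' s * gcut κ κ' s = ramp κ κ' s :=
  Real.mul_self_sqrt (ramp_nonneg κ κ' s)

theorem hcut_sq (κ κ' s : ℝ) : hcut κ κ' s * hcut κ κ' s = 1 - ramp κ κ' s :=
  Real.mul_self_sqrt (by linarith [ramp_le κ κ' s])

section op

variable {H : Type*} [NormedAddCommGroup H] [InnerProductSpace ℂ H] [CompleteSpace H]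

theorem cfc_re_mono {T : H →L[ℂ] H} {u v : ℝ → ℝ} (hu : Continuous u)
    (hv : Continuous v) (h : ∀ s, u s ≤ v s) (ξ : H) :
    (inner ℂ ξ (cfc u T ξ)).re ≤ (inner ℂ ξ (cfc v T ξ)).re := by
  have h1 : cfc u T ≤ cfc v T := cfc_mono (fun s _ => h s) hu.continuousOn hv.continuousOn
  rw [ContinuousLinearMap.le_def] at h1
  have h2 := h1.re_inner_nonneg_right ξ
  rw [sub_apply, inner_sub_right] at h2
  simpa using h2

theorem cfc_symm (T : H →L[ℂ] H) (u : ℝ → ℝ) (a b : H) :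
    inner ℂ (cfc u T a) b = inner ℂ a (cfc u T b) := by
  have h : IsSelfAdjoint (cfc u T) := cfc_predicate u T
  exact h.isSymmetric a b

theorem cfc_norm_sq (T : H →L[ℂ] H) {u : ℝ → ℝ} (hu : Continuous u) (ξ : H) :
    ‖cfc u T ξ‖ ^ 2 = (inner ℂ ξ (cfc (fun s => u s * u s) T ξ)).re := by
  rw [cfc_mul u u T hu.continuousOn hu.continuousOn]
  change _ = (inner ℂ ξ (cfc u T (cfc u T ξ))).re
  rw [← cfc_symm, inner_self_eq_norm_sq_to_K]
  norm_cast

theorem cut_pyth {T : H →L[ℂ] H} (hT : IsSelfAdjoint T) (κ κ' : ℝ) (ξ : H) :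
    ‖cfc (gcut κ κ') T ξ‖ ^ 2 + ‖cfc (hcut κ κ') T ξ‖ ^ 2 = ‖ξ‖ ^ 2 := by
  rw [cfc_norm_sq T (gcut_continuous κ κ'), cfc_norm_sq T (hcut_continuous κ κ'), ← Complex.add_re,
    ← inner_add_right]
  have hg := gcut_continuous κ κ'
  have hh := hcut_continuous κ κ'
  have e1 : cfc (fun s => gcut κ κ' s * gcut κ κ' s) T + cfc (fun s => hcut κ κ' s * hcut κ κ' s) T
      = 1 := by
    rw [← cfc_add T (fun s => gcut κ κ' s * gcut κ κ' s) (fun s => hcut κ κ' s * hcut κ κ' s)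
      (hg.mul hg).continuousOn (hh.mul hh).continuousOn]
    have e2 : (fun s => gcut κ κ' s * gcut κ κ' s + hcut κ κ' s * hcut κ κ' s) =
        fun _ => (1 : ℝ) := by
      funext s
      rw [gcut_sq, hcut_sq]
      ring
    rw [e2]
    exact cfc_const_one ℝ T
  have e3 : cfc (fun s => gcut κ κ' s * gcut κ κ' s) T ξ +
      cfc (fun s => hcut κ κ' s * hcut κ κ' s) T ξ = ξ := by
    rw [← add_apply, e1]
    rfl
  rw [e3, inner_self_eq_norm_sq_to_K]
  norm_cast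

theorem cut_sum {T : H →L[ℂ] H} (hT : IsSelfAdjoint T) (κ κ' : ℝ) :
    cfc (gcut κ κ') T * cfc (gcut κ κ') T + cfc (hcut κ κ') T * cfc (hcut κ κ') T = 1 := by
  have hg := gcut_continuous κ κ'
  have hh := hcut_continuous κ κ'
  rw [← cfc_mul _ _ T hg.continuousOn hg.continuousOn,
    ← cfc_mul _ _ T hh.continuousOn hh.continuousOn,
    ← cfc_add T (fun s => gcut κ κ' s * gcut κ κ' s) (fun s => hcut κ κ' s * hcut κ κ' s)
      (hg.mul hg).continuousOn (hh.mul hh).continuousOn]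
  have e2 : (fun s => gcut κ κ' s * gcut κ κ' s + hcut κ κ' s * hcut κ κ' s) =
      fun _ => (1 : ℝ) := by
    funext s
    rw [gcut_sq, hcut_sq]
    ring
  rw [e2]
  exact cfc_const_one ℝ T

theorem cut_near {T : H →L[ℂ] H} (hT : IsSelfAdjoint T) (κ κ' : ℝ) (ξ : H) :
    ‖ξ - cfc (gcut κ κ') T ξ‖ ≤ ‖cfc (hcut κ κ') T ξ‖ := by
  have hg := gcut_continuous κ κ'
  have hh := hcut_continuous κ κ'
  have e1 : ξ - cfc (gcut κ κ') T ξ = cfc (fun s => 1 - gcut κ κ' s) T ξ := by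
    rw [cfc_sub (fun _ => (1 : ℝ)) (gcut κ κ') T continuous_const.continuousOn hg.continuousOn,
      cfc_const_one ℝ T]
    rfl
  rw [e1]
  refine le_of_sq_le_sq ?_ (norm_nonneg _)
  have hc : Continuous (fun s => 1 - gcut κ κ' s) := continuous_const.sub hg
  rw [cfc_norm_sq T hc, cfc_norm_sq T hh]
  refine cfc_re_mono (hc.mul hc) (hh.mul hh) (fun s => ?_) ξ
  change (1 - gcut κ κ' s) * (1 - gcut κ κ' s) ≤ hcut κ κ' s * hcut κ κ' s
  have h1 : 0 ≤ gcut κ κ' s := Real.sqrt_nonneg _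
  have h2 := gcut_sq κ κ' s
  have h3 := ramp_le κ κ' s
  rw [hcut_sq, ← h2]
  have h4 : gcut κ κ' s ≤ 1 := by
    unfold gcut
    exact Real.sqrt_le_one.2 h3
  nlinarith

theorem cut_small (x : H →L[ℂ] H) {κ κ' : ℝ} (h0 : 0 ≤ κ) (h1 : κ < κ') (ξ : H) :
    ‖x (cfc (hcut κ κ') (star x * x) ξ)‖ ≤ κ' * ‖cfc (hcut κ κ') (star x * x) ξ‖ := by
  set T := star x * x with hT
  have hTs : IsSelfAdjoint T := IsSelfAdjoint.star_mul_self x
  have hh := hcut_continuous κ κ'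
  have hκ' : 0 ≤ κ' := h0.trans h1.le
  refine le_of_sq_le_sq ?_ (mul_nonneg hκ' (norm_nonneg _))
  have e1 : ‖x (cfc (hcut κ κ') T ξ)‖ ^ 2 =
      (inner ℂ ξ (cfc (fun s => hcut κ κ' s * (s * hcut κ κ' s)) T ξ)).re := by
    have e2 : cfc (fun s => hcut κ κ' s * (s * hcut κ κ' s)) T =
        cfc (hcut κ κ') T * (T * cfc (hcut κ κ') T) := by
      rw [cfc_mul (hcut κ κ') (fun s => s * hcut κ κ' s) T hh.continuousOn
        (continuous_id.mul hh).continuousOn,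
        cfc_mul (fun s => s) (hcut κ κ') T continuous_id.continuousOn hh.continuousOn,
        cfc_id' ℝ T]
    rw [e2]
    change _ = (inner ℂ ξ (cfc (hcut κ κ') T (T (cfc (hcut κ κ') T ξ)))).re
    rw [← cfc_symm]
    have e3 : T (cfc (hcut κ κ') T ξ) =
        ContinuousLinearMap.adjoint x (x (cfc (hcut κ κ') T ξ)) := rfl
    rw [e3, ContinuousLinearMap.adjoint_inner_right, inner_self_eq_norm_sq_to_K]
    norm_cast
  have e4 : (κ' * ‖cfc (hcut κ κ') T ξ‖) ^ 2 =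
      (inner ℂ ξ (cfc (fun s => κ' ^ 2 * (hcut κ κ' s * hcut κ κ' s)) T ξ)).re := by
    rw [mul_pow, cfc_norm_sq T hh, cfc_const_mul (κ' ^ 2) (fun s => hcut κ κ' s * hcut κ κ' s) T
      (hh.mul hh).continuousOn]
    change _ = (inner ℂ ξ ((κ' ^ 2) • cfc (fun s => hcut κ κ' s * hcut κ κ' s) T ξ)).re
    rw [← Complex.coe_smul, inner_smul_right, Complex.re_ofReal_mul]
  rw [e1, e4]
  refine cfc_re_mono (hh.mul (continuous_id.mul hh)) (continuous_const.mul (hh.mul hh))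
    (fun s => ?_) ξ
  change hcut κ κ' s * (s * hcut κ κ' s) ≤ κ' ^ 2 * (hcut κ κ' s * hcut κ κ' s)
  have h2 := hcut_sq κ κ' s
  have h3 := ramp_le κ κ' s
  by_cases hs : s ≤ κ' ^ 2
  · have h6 : s * (hcut κ κ' s * hcut κ κ' s) ≤ κ' ^ 2 * (hcut κ κ' s * hcut κ κ' s) :=
      mul_le_mul_of_nonneg_right hs (by rw [h2]; linarith)
    calc hcut κ κ' s * (s * hcut κ κ' s) = s * (hcut κ κ' s * hcut κ κ' s) := by ring
      _ ≤ _ := h6
  · have h4 : ramp κ κ' s = 1 := ramp_one h0 h1 (not_le.1 hs).le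
    rw [h4, sub_self] at h2
    rw [h2]
    have h5 : hcut κ κ' s = 0 := mul_self_eq_zero.1 h2
    rw [h5]
    simp

theorem cut_split (x : H →L[ℂ] H) (κ κ' : ℝ) :
    x = cfc (gcut κ κ') (x * star x) * x * cfc (gcut κ κ') (star x * x) +
      cfc (hcut κ κ') (x * star x) * x * cfc (hcut κ κ') (star x * x) := by
  have h1 := semiconj_cfc (a := star x * x) (b := x * star x) (y := x)
    (IsSelfAdjoint.star_mul_self x) (IsSelfAdjoint.mul_star_self x) (mul_assoc _ _ _).symm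
    (gcut_continuous κ κ')
  have h2 := semiconj_cfc (a := star x * x) (b := x * star x) (y := x)
    (IsSelfAdjoint.star_mul_self x) (IsSelfAdjoint.mul_star_self x) (mul_assoc _ _ _).symm
    (hcut_continuous κ κ')
  rw [← h1, ← h2, mul_assoc, mul_assoc, ← mul_add, cut_sum (IsSelfAdjoint.star_mul_self x), mul_one]

end op

end BGC
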