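import Pool.Agent.Work.MP_76d3fb_an.C.RDefs

/-! The functional `h l w = l (RR l L w)` of a nonempty list of stages is an `HFun`. -/

namespace BGC

open Filter Topology Set

variable {X : Type*} [MetricSpace X]

/-- Admissible lists of stages. -/
def LC (θ : ℝ) (L : List (ℝ × ℝ)) : Prop :=
  ∀ p ∈ L, 0 ≤ p.1 ∧ 0 ≤ p.2 ∧ ∃ N k : ℕ, k ≤ N + 1 ∧ p.1 * ((k : ℝ) / (N + 1)) ≤ θ ∧
    p.2 * (1 - (k : ℝ) / (N + 1)) ≤ θ

theorem rr_lp [Nonempty X] {l : (X → ℝ) → ℝ} (hl : l ∈ SX X) {L : List (ℝ × ℝ)}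
    (hL : ∀ p ∈ L, 0 ≤ p.1 ∧ 0 ≤ p.2) (hne : L ≠ []) (w : X → ℝ) : Lp (RR l L w) := by
  cases L with
  | nil => exact (hne rfl).elim
  | cons p L =>
    have h := hL p (List.mem_cons_self ..)
    exact rg_lp hl h.1 h.2 _

theorem rr_M {A : Sys X} [Nonempty X] {l : (X → ℝ) → ℝ} (hl : l ∈ SX X) {a : X → X}
    (ha : a ∈ A.S1) {w w' : X → ℝ} (hw : ∀ q, w' (a q) ≤ w q) (L : List (ℝ × ℝ))
    (hL : ∀ p ∈ L, 0 ≤ p.1 ∧ 0 ≤ p.2) (y : X) : RR (st a l) L w' (a y) ≤ RR l L w y := by
  induction L generalizing y with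
  | nil => exact hw y
  | cons p L ih =>
    have h := hL p (List.mem_cons_self ..)
    have hL' : ∀ p ∈ L, 0 ≤ p.1 ∧ 0 ≤ p.2 := fun p hp => hL p (List.mem_cons_of_mem _ hp)
    have ih' := fun y => ih hL' y
    change st a l (fun v => In p.1 p.2 (RR (st a l) L w') (a y) v) ≤
      l (fun v => In p.1 p.2 (RR l L w) y v)
    rw [st_apply (in_lp h.1 h.2 _ _)]
    refine lf_mono hl ((in_lp h.1 h.2 _ _).comp_ne (A.nonexp1 ha)) (in_lp h.1 h.2 _ _) fun v => ?_
    refine le_in fun q => (in_le h.1 _ _ _ (a q)).trans (max_le_max (max_le_max ?_ ?_) (ih' q))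
    · exact mul_le_mul_of_nonneg_left (A.nonexp1 ha q y) h.1
    · exact mul_le_mul_of_nonneg_left (A.nonexp1 ha q v) h.2

theorem rr_L [Nonempty X] {l : (X → ℝ) → ℝ} (hl : l ∈ SX X) (w : X → ℝ) {δ : ℝ} (hδ : 0 ≤ δ)
    (L : List (ℝ × ℝ)) (hL : ∀ p ∈ L, 0 ≤ p.1 ∧ 0 ≤ p.2) (y : X) :
    RR l L (fun q => w q + δ) y ≤ RR l L w y + δ := by
  induction L generalizing y with
  | nil => exact le_rfl
  | cons p L ih =>
    have h := hL p (List.mem_cons_self ..)
    have hL' : ∀ p ∈ L, 0 ≤ p.1 ∧ 0 ≤ p.2 := fun p hp => hL p (List.mem_cons_of_mem _ hp)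
    have ih' := fun y => ih hL' y
    change l (fun v => In p.1 p.2 (RR l L (fun q => w q + δ)) y v) ≤
      l (fun v => In p.1 p.2 (RR l L w) y v) + δ
    have h1 := lf_mono hl (in_lp h.1 h.2 (RR l L (fun q => w q + δ)) y)
      ((in_lp h.1 h.2 (RR l L w) y).add (Lp.const δ)) fun v =>
        (in_mono h.1 ih' y v).trans (in_add h.1 _ δ hδ y v)
    rwa [lf_add hl (in_lp h.1 h.2 _ _) (Lp.const δ), lf_const hl] at h1

theorem rr_C {A : Sys X} [Nonempty X] {l : (X → ℝ) → ℝ} (hl : l ∈ SX X) (n : ℕ) (w : X → ℝ)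
    (ws : Fin (n + 1) → X → ℝ)
    (hws : ∀ q : Fin (n + 1) → X, w (A.avg n q) ≤ (∑ i, ws i (q i)) / (n + 1))
    (L : List (ℝ × ℝ)) (hL : ∀ p ∈ L, 0 ≤ p.1 ∧ 0 ≤ p.2) (y : Fin (n + 1) → X) :
    RR l L w (A.avg n y) ≤ (∑ i, RR l L (ws i) (y i)) / (n + 1) := by
  induction L generalizing y with
  | nil => exact hws y
  | cons p L ih =>
    have h := hL p (List.mem_cons_self ..)
    have hL' : ∀ p ∈ L, 0 ≤ p.1 ∧ 0 ≤ p.2 := fun p hp => hL p (List.mem_cons_of_mem _ hp)
    have ih' := fun y => ih hL' y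
    change l (fun v => In p.1 p.2 (RR l L w) (A.avg n y) v) ≤
      (∑ i, l (fun v => In p.1 p.2 (RR l L (ws i)) (y i) v)) / (n + 1)
    have h2 : ∀ i ∈ (Finset.univ : Finset (Fin (n + 1))),
        Lp (fun v => In p.1 p.2 (RR l L (ws i)) (y i) v) := fun i _ => in_lp h.1 h.2 _ _
    have h1 := lf_mono hl (in_lp h.1 h.2 (RR l L w) (A.avg n y))
      ((Lp.sum Finset.univ h2).div_const ((n : ℝ) + 1)) fun v =>
        in_avg h.1 h.2 n (RR l L w) (fun i => RR l L (ws i)) ih' y v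
    rwa [lf_div_const hl (Lp.sum _ h2), lf_sum hl _ h2] at h1

theorem rr_U0 {A : Sys X} [Nonempty X] {l : (X → ℝ) → ℝ} (hl : l ∈ SX X) (w : X → ℝ) {B : ℝ}
    (L : List (ℝ × ℝ)) (hL : ∀ p ∈ L, 0 ≤ p.1 ∧ 0 ≤ p.2)
    (hB : ∀ p ∈ L, p.1 * A.D ≤ B ∧ p.2 * A.D ≤ B) (x : X) : RR l L w x ≤ max B (w x) := by
  induction L with
  | nil => exact le_max_right _ _
  | cons p L ih =>
    have h := hL p (List.mem_cons_self ..)
    have h' := hB p (List.mem_cons_self ..)
    have ih' := ih (fun p hp => hL p (List.mem_cons_of_mem _ hp))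
      (fun p hp => hB p (List.mem_cons_of_mem _ hp))
    refine lf_le_const hl (in_lp h.1 h.2 _ _) fun v => (in_le h.1 _ _ _ x).trans ?_
    refine max_le (max_le ?_ ?_) ih'
    · exact ((mul_le_mul_of_nonneg_left (A.bdd _ _) h.1).trans h'.1).trans (le_max_left _ _)
    · exact ((mul_le_mul_of_nonneg_left (A.bdd _ _) h.2).trans h'.2).trans (le_max_left _ _)

theorem rr_U {A : Sys X} [Nonempty X] {l : (X → ℝ) → ℝ} (hl : l ∈ SX X) (w : X → ℝ) {B : ℝ}
    (L : List (ℝ × ℝ)) (hne : L ≠ []) (hL : ∀ p ∈ L, 0 ≤ p.1 ∧ 0 ≤ p.2)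
    (hB : ∀ p ∈ L, p.1 * A.D ≤ B ∧ p.2 * A.D ≤ B) (x y : X) : RR l L w y ≤ max B (w x) := by
  cases L with
  | nil => exact (hne rfl).elim
  | cons p L =>
    have h := hL p (List.mem_cons_self ..)
    have h' := hB p (List.mem_cons_self ..)
    have ih' := rr_U0 hl w L (fun p hp => hL p (List.mem_cons_of_mem _ hp))
      (fun p hp => hB p (List.mem_cons_of_mem _ hp)) x
    refine lf_le_const hl (in_lp h.1 h.2 _ _) fun v => (in_le h.1 _ _ _ x).trans ?_
    refine max_le (max_le ?_ ?_) ih'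
    · exact ((mul_le_mul_of_nonneg_left (A.bdd _ _) h.1).trans h'.1).trans (le_max_left _ _)
    · exact ((mul_le_mul_of_nonneg_left (A.bdd _ _) h.2).trans h'.2).trans (le_max_left _ _)

theorem lf_lt_exists {l : (X → ℝ) → ℝ} (hl : l ∈ SX X) {f : X → ℝ} (hf : Lp f) {c : ℝ}
    (h : l f < c) : ∃ v, f v < c := by
  by_contra hcon
  push Not at hcon
  exact absurd (lf_ge_const hl hf hcon) (not_le.2 h)

theorem rr_I [Nonempty X] {l : (X → ℝ) → ℝ} (hl : l ∈ SX X) (w : X → ℝ) {c : ℝ}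
    (L : List (ℝ × ℝ)) (hL : ∀ p ∈ L, 0 ≤ p.1 ∧ 0 ≤ p.2) (y : X) (h : RR l L w y < c) :
    ∃ q, w q < c := by
  induction L generalizing y with
  | nil => exact ⟨y, h⟩
  | cons p L ih =>
    have hp := hL p (List.mem_cons_self ..)
    obtain ⟨v, hv⟩ := lf_lt_exists hl (in_lp hp.1 hp.2 _ _) h
    obtain ⟨q, hq⟩ := in_lt hv
    exact ih (fun p hp => hL p (List.mem_cons_of_mem _ hp)) q ((le_max_right _ _).trans_lt hq)

theorem rr_Z [Nonempty X] {l : (X → ℝ) → ℝ} (hl : l ∈ SX X) {V : Ultrafilter X} (hV : Rep V l)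
    (w : X → ℝ) (z : X) (L : List (ℝ × ℝ)) (hL : ∀ p ∈ L, 0 ≤ p.1 ∧ 0 ≤ p.2) (m : X → ℝ)
    (hm : Chn V z L m) (y : X) : RR l L (jn w z) y ≤ max (RR l L w y) (m y) := by
  induction L generalizing y m with
  | nil => exact max_le_max le_rfl (hm y)
  | cons p L ih =>
    have hp := hL p (List.mem_cons_self ..)
    obtain ⟨m', h1, h2⟩ := hm
    have ih' := fun y => ih (fun p hp => hL p (List.mem_cons_of_mem _ hp)) m' h2 y
    refine le_of_forall_pos_le_add fun ε hε => ?_
    have hin : Lp (fun v => In p.1 p.2 (RR l L w) y v) := in_lp hp.1 hp.2 _ _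
    have h3 : l (fun v => In p.1 p.2 (RR l L (jn w z)) y v) ≤
        l (fun v => max (In p.1 p.2 (RR l L w) y v) (m y) + ε) := by
      refine hV.mono_ev (in_lp hp.1 hp.2 _ _) ((hin.max (Lp.const _)).add (Lp.const _)) ?_
      filter_upwards [h1 y ε hε] with v hv
      have h4 : In p.1 p.2 (RR l L (jn w z)) y v ≤
          In p.1 p.2 (fun q => max (RR l L w q) (m y)) y v + ε := by
        rw [← sub_le_iff_le_add]
        refine le_in fun q => ?_
        rw [sub_le_iff_le_add]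
        refine (in_le hp.1 _ _ _ q).trans ?_
        have e1 := hv q
        have e2 := ih' q
        have e3 : max (max (p.1 * dist q y) (p.2 * dist q v)) (m y) ≤
            max (max (p.1 * dist q y) (p.2 * dist q v)) (max (RR l L w q) (m y)) :=
          max_le_max le_rfl (le_max_right _ _)
        refine max_le ?_ ?_
        · have := le_max_left (max (p.1 * dist q y) (p.2 * dist q v)) (max (RR l L w q) (m y))
          linarith
        · refine e2.trans (max_le ?_ ?_)
          · have := (le_max_left (RR l L w q) (m y)).trans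
              (le_max_right (max (p.1 * dist q y) (p.2 * dist q v)) (max (RR l L w q) (m y)))
            linarith
          · linarith
      have h5 := in_max hp.1 (b := p.2) (RR l L w) (m y) y v
      linarith
    rw [lf_add hl (hin.max (Lp.const _)) (Lp.const _), lf_const hl, lf_max hl hin (Lp.const _),
      lf_const hl] at h3
    exact h3

theorem rr_O {A : Sys X} [Nonempty X] {l : (X → ℝ) → ℝ} (hl : l ∈ SX X) {θ r : ℝ}
    (hθ : 0 ≤ θ) (hr : 0 ≤ r) (hlr : ∀ y, l (fun v => dist v y) ≤ r)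
    (L : List (ℝ × ℝ)) (hL : LC θ L) (y : X) : RR l L (fun _ => 0) y ≤ θ * r := by
  induction L generalizing y with
  | nil => exact mul_nonneg hθ hr
  | cons p L ih =>
    obtain ⟨h1, h2, N, k, hk, h3, h4⟩ := hL p (List.mem_cons_self ..)
    have ih' := fun y => ih (fun p hp => hL p (List.mem_cons_of_mem _ hp)) y
    have hN : (0 : ℝ) < N + 1 := by positivity
    have hcard : (Finset.univ.filter fun i : Fin (N + 1) => i.val < k).card = k := by
      rw [Fin.card_filter_val_lt]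
      exact min_eq_right hk
    have hin : ∀ v, In p.1 p.2 (RR l L (fun _ => 0)) y v ≤ max (θ * dist v y) (θ * r) := by
      intro v
      set g : Fin (N + 1) → X := fun i => if i.val < k then v else y with hg
      have hy : dist (A.avg N g) y ≤ (k : ℝ) / (N + 1) * dist v y := by
        refine (A.dist_avg N g y).trans (le_of_eq ?_)
        have : ∑ i, dist (g i) y = k * dist v y := by
          have e1 : ∀ i, dist (g i) y = if i.val < k then dist v y else 0 := by
            intro i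
            by_cases hi : i.val < k
            · simp [hg, hi]
            · simp [hg, hi]
          rw [Finset.sum_congr rfl fun i _ => e1 i, Finset.sum_ite, Finset.sum_const, hcard]
          simp
        rw [this]
        ring
      have hv : dist (A.avg N g) v ≤ (1 - (k : ℝ) / (N + 1)) * dist v y := by
        refine (A.dist_avg N g v).trans (le_of_eq ?_)
        have : ∑ i, dist (g i) v = (N + 1 - k) * dist v y := by
          have e1 : ∀ i, dist (g i) v = dist v y - if i.val < k then dist v y else 0 := by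
            intro i
            by_cases hi : i.val < k
            · simp [hg, hi]
            · simp [hg, hi, dist_comm]
          rw [Finset.sum_congr rfl fun i _ => e1 i, Finset.sum_sub_distrib, Finset.sum_ite,
            Finset.sum_const, Finset.sum_const, hcard, Finset.card_univ, Fintype.card_fin]
          simp
          ring
        rw [this]
        field_simp
      refine (in_le h1 _ _ _ (A.avg N g)).trans (max_le (max_le ?_ ?_) ?_)
      · refine le_trans ?_ (le_max_left _ _)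
        refine (mul_le_mul_of_nonneg_left hy h1).trans ?_
        rw [← mul_assoc]
        exact mul_le_mul_of_nonneg_right h3 dist_nonneg
      · refine le_trans ?_ (le_max_left _ _)
        refine (mul_le_mul_of_nonneg_left hv h2).trans ?_
        rw [← mul_assoc]
        exact mul_le_mul_of_nonneg_right h4 dist_nonneg
      · exact (ih' _).trans (le_max_right _ _)
    have h5 := lf_mono hl (in_lp h1 h2 (RR l L (fun _ => 0)) y)
      (((Lp.dist_left y).const_mul θ).max (Lp.const (θ * r))) hin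
    rw [lf_max hl ((Lp.dist_left y).const_mul θ) (Lp.const _), lf_const hl,
      lf_const_mul hl (Lp.dist_left y)] at h5
    exact h5.trans (max_le (mul_le_mul_of_nonneg_left (hlr y) hθ) le_rfl)

/-- The constant bounding the functional. -/
noncomputable def LB (L : List (ℝ × ℝ)) : ℝ := (L.map fun p => p.1 + p.2).sum

theorem lb_le {L : List (ℝ × ℝ)} (hL : ∀ p ∈ L, 0 ≤ p.1 ∧ 0 ≤ p.2) :
    0 ≤ LB L ∧ ∀ p ∈ L, p.1 ≤ LB L ∧ p.2 ≤ LB L := by
  induction L with
  | nil => simp [LB]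
  | cons p L ih =>
    obtain ⟨h1, h2⟩ := ih fun p hp => hL p (List.mem_cons_of_mem _ hp)
    have h := hL p (List.mem_cons_self ..)
    have e : LB (p :: L) = p.1 + p.2 + LB L := by simp [LB]
    rw [e]
    refine ⟨by linarith [h.1, h.2], fun q hq => ?_⟩
    rcases List.mem_cons.1 hq with rfl | hq
    · exact ⟨by linarith [h.2], by linarith [h.1]⟩
    · have := h2 q hq
      exact ⟨by linarith [h.1, h.2, this.1], by linarith [h.1, h.2, this.2]⟩

theorem hfun_of_chn (A : Sys X) [Nonempty X] (θ : ℝ) (hθ : 0 ≤ θ) (L : List (ℝ × ℝ))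
    (hne : L ≠ []) (hL : LC θ L) (T : Set ((X → ℝ) → ℝ)) (hT : T ⊆ SX X) (r : ℝ)
    (hr : Rad T r) (z : ((X → ℝ) → ℝ) → X)
    (hz : ∀ l ∈ T, ∀ V, Rep V l → ∃ m : X → ℝ, (∀ y, m y ≤ 0) ∧ Chn V (z l) L m) :
    HFun A T z ((1 + LB L) * A.D) (θ * r) (fun l w => l (RR l L w)) := by
  have hL0 : ∀ p ∈ L, 0 ≤ p.1 ∧ 0 ≤ p.2 := fun p hp => ⟨(hL p hp).1, (hL p hp).2.1⟩
  have hD := A.D_nonneg
  have hlb := lb_le hL0
  have hlp : ∀ l ∈ T, ∀ w, Lp (RR l L w) := fun l hl w => rr_lp (hT hl) hL0 hne w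
  have hB : ∀ p ∈ L, p.1 * A.D ≤ (1 + LB L) * A.D ∧ p.2 * A.D ≤ (1 + LB L) * A.D := by
    intro p hp
    have := hlb.2 p hp
    exact ⟨mul_le_mul_of_nonneg_right (by linarith [this.1]) hD,
      mul_le_mul_of_nonneg_right (by linarith [this.2]) hD⟩
  refine ⟨?_, ?_, ?_, ?_, ?_, ?_, ?_⟩
  · intro a ha l hl hst w w' hw
    rw [st_apply (hlp _ hst w')]
    exact lf_mono (hT hl) ((hlp _ hst w').comp_ne (A.nonexp1 ha)) (hlp l hl w)
      fun y => rr_M (hT hl) ha hw L hL0 y
  · intro l hl w δ hδ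
    have h1 := lf_mono (hT hl) (hlp l hl (fun q => w q + δ)) ((hlp l hl w).add (Lp.const δ))
      fun y => rr_L (hT hl) w hδ L hL0 y
    rwa [lf_add (hT hl) (hlp l hl w) (Lp.const δ), lf_const (hT hl)] at h1
  · intro l hl n w ws hws
    have h2 : ∀ i ∈ (Finset.univ : Finset (Fin (n + 1))), Lp (RR l L (ws i)) :=
      fun i _ => hlp l hl (ws i)
    have h1 := lf_mono (hT hl) (hlp l hl w) ((Lp.sum Finset.univ h2).div_const ((n : ℝ) + 1))
      fun y => by
        have := rr_C (hT hl) n w ws hws L hL0 (fun _ => y)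
        rwa [A.avgc] at this
    rwa [lf_div_const (hT hl) (Lp.sum _ h2), lf_sum (hT hl) _ h2] at h1
  · intro l hl w x
    exact lf_le_const (hT hl) (hlp l hl w) fun y => rr_U (hT hl) w L hne hL0 hB x y
  · intro l hl w c hc
    obtain ⟨y, hy⟩ := lf_lt_exists (hT hl) (hlp l hl w) hc
    exact rr_I (hT hl) w L hL0 y hy
  · intro l hl w
    obtain ⟨V, hV⟩ := rep_exists (hT hl)
    obtain ⟨m, hm0, hm⟩ := hz l hl V hV
    refine lf_mono (hT hl) (hlp l hl _) (hlp l hl w) fun y => ?_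
    refine (rr_Z (hT hl) hV w (z l) L hL0 m hm y).trans (max_le le_rfl ((hm0 y).trans ?_))
    cases L with
    | nil => exact (hne rfl).elim
    | cons p L =>
      have h := hL0 p (List.mem_cons_self ..)
      exact rg_nonneg (hT hl) h.1 h.2 _ y
  · intro l hl
    exact lf_le_const (hT hl) (hlp l hl _) fun y =>
      rr_O (A := A) (hT hl) hθ hr.pos.le (hr.le l hl) L hL y

end BGC
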