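import Pool.Agent.Work.MP_76d3fb_an.Core
import Pool.Agent.Work.MP_76d3fb_an.SysK
import Pool.Agent.Work.MP_76d3fb_an.FragK
import Pool.Agent.Work.MP_76d3fb_an.C.RProp

/-! The general theorem with stages: the chain property implies the weak fixed point property for
left reversible semigroups. -/

namespace BGC

open Filter Topology Set

/-- The chain property of a normed space for a list of stages. -/
def HasChn (E : Type*) [NormedAddCommGroup E] [NormedSpace ℂ E] (L : List (ℝ × ℝ)) : Prop :=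
  ∀ (K : Set E) (D : ℝ), (∀ x y : K, dist x y ≤ D) → ∀ (V : Ultrafilter K) (z : K), WCv K V z →
    ∃ m : K → ℝ, (∀ y, m y ≤ 0) ∧ Chn V z L m

variable {E : Type*} [NormedAddCommGroup E] [NormedSpace ℂ E]

theorem wfp_of_chn (θ : ℝ) (hθ0 : 0 ≤ θ) (hθ : θ < 1) (L : List (ℝ × ℝ)) (hne : L ≠ [])
    (hL : LC θ L) (hE : HasChn E L) (S : Type*) [Semigroup S] [TopologicalSpace S]
    (hrev : ∀ a b : S, (closure (range (a * ·)) ∩ closure (range (b * ·))).Nonempty) :
    WFPFor E S := by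
  intro K₀ hne0 hc hw act hmul hnon hcont
  rcases isEmpty_or_nonempty S with hS | hS
  · obtain ⟨x, hx⟩ := hne0
    exact ⟨⟨x, hx⟩, fun s => (hS.false s).elim⟩
  obtain ⟨K, hK⟩ := exists_minK hne0 hc hw act
  obtain ⟨A, -⟩ := exists_sys hrev act hmul hnon hcont hK
  obtain ⟨x0, hx0⟩ := hK.ne
  have hN : Nonempty K := ⟨⟨x0, hx0⟩⟩
  by_cases hX : ∃ x y : K, x ≠ y
  · exfalso
    refine core A hX (cvK K) (wsq_K hK.conv hK.wc) fun T hT r hr => ?_
    have hzex : ∀ l : (K → ℝ) → ℝ, ∃ z : K, l ∈ T → IsWL K l z := by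
      intro l
      by_cases hl : l ∈ T
      · obtain ⟨z, hz⟩ := exists_wl hK.wc (hT.sub hl)
        exact ⟨z, fun _ => hz⟩
      · exact ⟨⟨x0, hx0⟩, fun h => (hl h).elim⟩
    choose z hz using hzex
    have hD := A.D_nonneg
    have hL0 : ∀ p ∈ L, 0 ≤ p.1 ∧ 0 ≤ p.2 := fun p hp => ⟨(hL p hp).1, (hL p hp).2.1⟩
    refine ⟨z, (1 + LB L) * A.D, θ * r, fun l w => l (RR l L w), ?_, ?_, ?_, ?_⟩
    · have := (lb_le hL0).1
      nlinarith
    · nlinarith [hr.pos]
    · exact hfun_of_chn A θ hθ0 L hne hL T hT.sub r hr z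
        (fun l hl V hV => hE K A.D A.bdd V (z l) (wcv_of_rep (hz l hl) hV))
    · exact frg_K hK.conv hK.wc T hT.ne z hz
  · push Not at hX
    refine ⟨⟨x0, hK.sub hx0⟩, fun s => ?_⟩
    have h1 := hK.inv s x0 (hK.sub hx0) hx0
    have h2 := hX ⟨_, h1⟩ ⟨x0, hx0⟩
    have h3 : (act s ⟨x0, hK.sub hx0⟩ : E) = x0 := congrArg (fun x : K => (x : E)) h2
    exact Subtype.ext h3

end BGC
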