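import Pool.Agent.Work.MP_76d3fb_an.Defs

/-! The stage estimate for operators on a Hilbert space. -/

namespace BGC

theorem stage_num {δ x1 x2 y1 y2 : ℝ} (hδ0 : 0 ≤ δ) (hδ1 : δ ≤ 1) (hx2 : 0 ≤ x2) (hy2 : 0 ≤ y2)
    (hx : x1 ^ 2 + x2 ^ 2 = 1) (hy : y1 ^ 2 + y2 ^ 2 = 1) :
    (1 - δ / 16) * (x1 * y1) + (1 - δ) * (x2 * y2) + δ / 8 * (x2 + y2) ≤ 1 - δ / 32 := by
  have h1 : x1 * y1 ≤ 1 - (x2 ^ 2 + y2 ^ 2) / 2 := by nlinarith [sq_nonneg (x1 - y1)]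
  have h2 : x2 * y2 ≤ (x2 ^ 2 + y2 ^ 2) / 2 := by nlinarith [sq_nonneg (x2 - y2)]
  have h3 : (1 - δ / 16) * (x1 * y1) ≤ (1 - δ / 16) * (1 - (x2 ^ 2 + y2 ^ 2) / 2) :=
    mul_le_mul_of_nonneg_left h1 (by linarith)
  have h4 : (1 - δ) * (x2 * y2) ≤ (1 - δ) * ((x2 ^ 2 + y2 ^ 2) / 2) :=
    mul_le_mul_of_nonneg_left h2 (by linarith)
  have h5 : 0 ≤ δ * (x2 - 2 / 11) ^ 2 := mul_nonneg hδ0 (sq_nonneg _)
  have h6 : 0 ≤ δ * (y2 - 2 / 11) ^ 2 := mul_nonneg hδ0 (sq_nonneg _)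
  have h7 : 0 ≤ δ * x2 ^ 2 := mul_nonneg hδ0 (sq_nonneg _)
  have h8 : 0 ≤ δ * y2 ^ 2 := mul_nonneg hδ0 (sq_nonneg _)
  nlinarith

theorem stage_est {H : Type*} [NormedAddCommGroup H] [InnerProductSpace ℂ H] [CompleteSpace H]
    (x X Am c c' f f' : H →L[ℂ] H) {C κ δ ε : ℝ} (hδ0 : 0 ≤ δ) (hδ1 : δ ≤ 1) (hC : 0 ≤ C)
    (hε : 0 ≤ ε) (h1 : ∀ ξ, ‖c ξ‖ ^ 2 + ‖f ξ‖ ^ 2 = ‖ξ‖ ^ 2)
    (h1' : ∀ ξ, ‖c' ξ‖ ^ 2 + ‖f' ξ‖ ^ 2 = ‖ξ‖ ^ 2)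
    (h2 : ∀ ξ, ‖ξ - c ξ‖ ≤ ‖f ξ‖) (h2' : ∀ ξ, ‖ξ - c' ξ‖ ≤ ‖f' ξ‖)
    (h3 : x = c' * x * c + f' * x * f) (h4 : ∀ ξ, ‖x (f ξ)‖ ≤ κ * ‖f ξ‖)
    (hc' : ∀ u v : H, inner ℂ (c' u) v = inner ℂ u (c' v))
    (hf' : ∀ u v : H, inner ℂ (f' u) v = inner ℂ u (f' v))
    (hκ : κ ≤ (1 - δ) * C + ε) (hW : ‖X - x‖ ≤ δ / 8 * C) (hA : ‖Am‖ ≤ (1 - δ / 16) * C)
    (hK : ‖c' * (X - Am) * c‖ ≤ ε) : ‖X‖ ≤ (1 - δ / 32) * C + 2 * ε := by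
  have hM : 0 ≤ (1 - δ / 32) * C + 2 * ε := by
    have : 0 ≤ (1 - δ / 32) * C := mul_nonneg (by linarith) hC
    linarith
  have hmain : ∀ ξ η : H, ‖ξ‖ = 1 → ‖η‖ = 1 → ‖inner ℂ η (X ξ)‖ ≤ (1 - δ / 32) * C + 2 * ε := by
    intro ξ η hξ hη
    have hform : inner ℂ η (X ξ) = inner ℂ (c' η) (Am (c ξ)) +
        inner ℂ η ((c' * (X - Am) * c) ξ) + inner ℂ (f' η) (x (f ξ)) +
        inner ℂ (η - c' η) ((X - x) ξ) + inner ℂ (c' η) ((X - x) (ξ - c ξ)) := by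
      have e1 : x ξ = c' (x (c ξ)) + f' (x (f ξ)) := by
        conv_lhs => rw [h3]
        rfl
      have e2 : (c' * (X - Am) * c) ξ = c' (X (c ξ)) - c' (Am (c ξ)) := by
        change c' ((X - Am) (c ξ)) = _
        rw [sub_apply, map_sub]
      have e3 : inner ℂ η (x ξ) = inner ℂ (c' η) (x (c ξ)) + inner ℂ (f' η) (x (f ξ)) := by
        rw [e1, inner_add_right, ← hc', ← hf']
      rw [e2, inner_sub_right, ← hc' η (X (c ξ)), ← hc' η (Am (c ξ))]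
      simp only [sub_apply, map_sub, inner_sub_left, inner_sub_right]
      rw [e3]
      ring
    have hx1 : ‖c ξ‖ ^ 2 + ‖f ξ‖ ^ 2 = 1 := by rw [h1, hξ]; norm_num
    have hy1 : ‖c' η‖ ^ 2 + ‖f' η‖ ^ 2 = 1 := by rw [h1', hη]; norm_num
    have hcη : ‖c' η‖ ≤ 1 := by
      have : ‖c' η‖ ^ 2 ≤ 1 := by nlinarith [sq_nonneg ‖f' η‖]
      nlinarith [norm_nonneg (c' η)]
    have b1 : ‖inner ℂ (c' η) (Am (c ξ))‖ ≤ (1 - δ / 16) * C * (‖c ξ‖ * ‖c' η‖) := by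
      refine (norm_inner_le_norm _ _).trans ?_
      have := (Am.le_opNorm (c ξ)).trans (mul_le_mul_of_nonneg_right hA (norm_nonneg _))
      have := mul_le_mul_of_nonneg_left this (norm_nonneg (c' η))
      linarith
    have b2 : ‖inner ℂ η ((c' * (X - Am) * c) ξ)‖ ≤ ε := by
      refine (norm_inner_le_norm _ _).trans ?_
      rw [hη, one_mul]
      refine ((c' * (X - Am) * c).le_opNorm ξ).trans ?_
      rw [hξ, mul_one]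
      exact hK
    have b3 : ‖inner ℂ (f' η) (x (f ξ))‖ ≤ ((1 - δ) * C + ε) * (‖f ξ‖ * ‖f' η‖) := by
      refine (norm_inner_le_norm _ _).trans ?_
      have := (h4 ξ).trans (mul_le_mul_of_nonneg_right hκ (norm_nonneg _))
      have := mul_le_mul_of_nonneg_left this (norm_nonneg (f' η))
      linarith
    have b4 : ‖inner ℂ (η - c' η) ((X - x) ξ)‖ ≤ δ / 8 * C * ‖f' η‖ := by
      refine (norm_inner_le_norm _ _).trans ?_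
      have e1 : ‖(X - x) ξ‖ ≤ δ / 8 * C := by
        refine ((X - x).le_opNorm ξ).trans ?_
        rw [hξ, mul_one]
        exact hW
      calc ‖η - c' η‖ * ‖(X - x) ξ‖ ≤ ‖f' η‖ * (δ / 8 * C) :=
            mul_le_mul (h2' η) e1 (norm_nonneg _) (norm_nonneg _)
        _ = _ := by ring
    have b5 : ‖inner ℂ (c' η) ((X - x) (ξ - c ξ))‖ ≤ δ / 8 * C * ‖f ξ‖ := by
      refine (norm_inner_le_norm _ _).trans ?_
      have e1 : ‖(X - x) (ξ - c ξ)‖ ≤ δ / 8 * C * ‖f ξ‖ := by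
        refine ((X - x).le_opNorm _).trans ?_
        exact mul_le_mul hW (h2 ξ) (norm_nonneg _) (by positivity)
      calc ‖c' η‖ * ‖(X - x) (ξ - c ξ)‖ ≤ 1 * (δ / 8 * C * ‖f ξ‖) :=
            mul_le_mul hcη e1 (norm_nonneg _) zero_le_one
        _ = _ := one_mul _
    have hnum := stage_num hδ0 hδ1 (norm_nonneg (f ξ)) (norm_nonneg (f' η)) hx1 hy1
    have hnum' := mul_le_mul_of_nonneg_left hnum hC
    have hfx : ‖f ξ‖ * ‖f' η‖ ≤ 1 := by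
      nlinarith [sq_nonneg (‖f ξ‖ - ‖f' η‖), sq_nonneg ‖c ξ‖, sq_nonneg ‖c' η‖]
    have hfx' : ε * (‖f ξ‖ * ‖f' η‖) ≤ ε * 1 := mul_le_mul_of_nonneg_left hfx hε
    rw [hform]
    have t1 := norm_add_le (inner ℂ (c' η) (Am (c ξ)) +
        inner ℂ η ((c' * (X - Am) * c) ξ) + inner ℂ (f' η) (x (f ξ)) +
        inner ℂ (η - c' η) ((X - x) ξ)) (inner ℂ (c' η) ((X - x) (ξ - c ξ)))
    have t2 := norm_add_le (inner ℂ (c' η) (Am (c ξ)) +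
        inner ℂ η ((c' * (X - Am) * c) ξ) + inner ℂ (f' η) (x (f ξ)))
        (inner ℂ (η - c' η) ((X - x) ξ))
    have t3 := norm_add_le (inner ℂ (c' η) (Am (c ξ)) +
        inner ℂ η ((c' * (X - Am) * c) ξ)) (inner ℂ (f' η) (x (f ξ)))
    have t4 := norm_add_le (inner ℂ (c' η) (Am (c ξ))) (inner ℂ η ((c' * (X - Am) * c) ξ))
    linarith
  refine ContinuousLinearMap.opNorm_le_of_unit_norm hM fun ξ hξ => ?_
  by_cases h0 : X ξ = 0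
  · rw [h0, norm_zero]
    exact hM
  have hpos : 0 < ‖X ξ‖ := norm_pos_iff.2 h0
  have hη : ‖((‖X ξ‖⁻¹ : ℝ) : ℂ) • X ξ‖ = 1 := by
    rw [norm_smul, Complex.norm_real, Real.norm_eq_abs, abs_of_pos (inv_pos.2 hpos)]
    exact inv_mul_cancel₀ hpos.ne'
  have h5 := hmain ξ _ hξ hη
  rw [inner_smul_left, norm_mul] at h5
  simp only [Complex.conj_ofReal, Complex.norm_real, Real.norm_eq_abs,
    abs_of_pos (inv_pos.2 hpos)] at h5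
  rw [inner_self_eq_norm_sq_to_K] at h5
  simp only [norm_pow, RCLike.norm_ofReal, abs_norm] at h5
  have h6 : ‖X ξ‖⁻¹ * ‖X ξ‖ ^ 2 = ‖X ξ‖ := by
    rw [pow_two, ← mul_assoc, inv_mul_cancel₀ hpos.ne', one_mul]
  rwa [h6] at h5

end BGC
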