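import Pool.Agent.Work.MP_76d3fb_an.C.Params
import Pool.Agent.Work.MP_76d3fb_an.C.CompL
import Pool.Agent.Work.MP_76d3fb_an.C.CutOff
import Pool.Agent.Work.MP_76d3fb_an.C.StageEst
import Pool.Agent.Work.MP_76d3fb_an.C.GenC

/-! The chain property for subspaces of C*-algebras with a finite chain of representations. -/

namespace BGC

open Filter Topology Set

section

variable {A : Type*} [NonUnitalCStarAlgebra A] {n : ℕ} {H : Fin n → Type*}
  [∀ i, NormedAddCommGroup (H i)] [∀ i, InnerProductSpace ℂ (H i)] [∀ i, CompleteSpace (H i)]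

/-- Norm in the first `k` representations. -/
noncomputable def nk (ρ : ∀ i, A →⋆ₙₐ[ℂ] (H i →L[ℂ] H i)) (k : ℕ) (a : A) : ℝ :=
  ⨆ i : Fin n, if i.val < k then ‖ρ i a‖ else 0

variable (ρ : ∀ i, A →⋆ₙₐ[ℂ] (H i →L[ℂ] H i))

theorem nk_nonneg (k : ℕ) (a : A) : 0 ≤ nk ρ k a := by
  refine Real.iSup_nonneg fun i => ?_
  split_ifs
  · exact norm_nonneg _
  · exact le_rfl

theorem le_nk {k : ℕ} (a : A) {i : Fin n} (hi : i.val < k) : ‖ρ i a‖ ≤ nk ρ k a := by
  have h := le_ciSup (f := fun i : Fin n => if i.val < k then ‖ρ i a‖ else 0)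
    (Set.finite_range _).bddAbove i
  simp only [hi, if_true] at h
  exact h

theorem nk_le {k : ℕ} {a : A} {c : ℝ} (hc : 0 ≤ c) (h : ∀ i : Fin n, i.val < k → ‖ρ i a‖ ≤ c) :
    nk ρ k a ≤ c := by
  refine Real.iSup_le (fun i => ?_) hc
  split_ifs with hi
  · exact h i hi
  · exact hc

theorem nk_zero (a : A) : nk ρ 0 a = 0 :=
  le_antisymm (nk_le ρ le_rfl fun i hi => (Nat.not_lt_zero _ hi).elim) (nk_nonneg ρ 0 a)

/-- The joint representation. -/
noncomputable def jrep : A →⋆ₙₐ[ℂ] (∀ i, (H i →L[ℂ] H i)) where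
  toFun a := fun i => ρ i a
  map_smul' c a := by funext i; simp
  map_zero' := by funext i; simp
  map_add' a b := by funext i; simp
  map_mul' a b := by funext i; simp
  map_star' a := by funext i; simp [map_star]

theorem norm_le_nk (hinj : ∀ a, (∀ i, ρ i a = 0) → a = 0) (a : A) : ‖a‖ ≤ nk ρ n a := by
  have hi : Function.Injective (jrep ρ) := by
    rw [injective_iff_map_eq_zero]
    intro b hb
    exact hinj b fun i => congrFun hb i
  have h1 : ‖jrep ρ a‖ = ‖a‖ := NonUnitalStarAlgHom.norm_map (jrep ρ) hi a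
  rw [← h1]
  exact (pi_norm_le_iff_of_nonneg (nk_nonneg ρ n a)).2 fun i => le_nk ρ a i.2

theorem rep_cont {H' : Type*} [NormedAddCommGroup H'] [InnerProductSpace ℂ H'] [CompleteSpace H']
    (σ : A →⋆ₙₐ[ℂ] (H' →L[ℂ] H')) : Continuous σ :=
  AddMonoidHomClass.continuous_of_bound σ 1 fun a => by
    rw [one_mul]
    exact NonUnitalStarAlgHom.norm_apply_le σ a

/-- The cut-off of an element is killed by the representations in which it is small. -/
theorem cut_kill {H' : Type*} [NormedAddCommGroup H'] [InnerProductSpace ℂ H'] [CompleteSpace H']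
    (σ : A →⋆ₙₐ[ℂ] (H' →L[ℂ] H')) (b : A) (hb : IsSelfAdjoint b) {κ κ' : ℝ} (h0 : 0 ≤ κ)
    (h1 : κ < κ') (hn : ‖σ b‖ ≤ κ ^ 2) : σ (cfcₙ (gcut κ κ') b) = 0 := by
  have hg0 : gcut κ κ' 0 = 0 := gcut_zero h0 h1 (sq_nonneg κ)
  rw [NonUnitalStarAlgHom.map_cfcₙ σ (gcut κ κ') b (gcut_continuous κ κ').continuousOn hg0
    (rep_cont σ) hb (hb.map σ)]
  have h2 : (quasispectrum ℝ (σ b)).EqOn (gcut κ κ') (fun _ => 0) := by
    intro s hs
    have h3 := NonUnitalIsometricContinuousFunctionalCalculus.norm_quasispectrum_le (σ b) hs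
      (hb.map σ)
    exact gcut_zero h0 h1 (((le_abs_self s).trans h3).trans hn)
  rw [cfcₙ_congr h2, cfcₙ_const_zero]

theorem cut_map {H' : Type*} [NormedAddCommGroup H'] [InnerProductSpace ℂ H'] [CompleteSpace H']
    (σ : A →⋆ₙₐ[ℂ] (H' →L[ℂ] H')) (b : A) (hb : IsSelfAdjoint b) {κ κ' : ℝ} (h0 : 0 ≤ κ)
    (h1 : κ < κ') : σ (cfcₙ (gcut κ κ') b) = cfc (gcut κ κ') (σ b) := by
  have hg0 : gcut κ κ' 0 = 0 := gcut_zero h0 h1 (sq_nonneg κ)
  rw [NonUnitalStarAlgHom.map_cfcₙ σ (gcut κ κ') b (gcut_continuous κ κ').continuousOn hg0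
    (rep_cont σ) hb (hb.map σ)]
  exact cfcₙ_eq_cfc (gcut_continuous κ κ').continuousOn hg0

theorem cut_compact (hcomp : ∀ i a, (∀ j < i, ρ j a = 0) → IsCompactOperator (ρ i a))
    (i : Fin n) (b : A) (hb : IsSelfAdjoint b) {κ κ' : ℝ} (h0 : 0 ≤ κ) (h1 : κ < κ')
    (hn : ∀ j < i, ‖ρ j b‖ ≤ κ ^ 2) : IsCompactOperator (cfc (gcut κ κ') (ρ i b) : H i →L[ℂ] H i) := by
  rw [← cut_map (ρ i) b hb h0 h1]
  exact hcomp i _ fun j hj => cut_kill (ρ j) b hb h0 h1 (hn j hj)

variable {E : Type*} [NormedAddCommGroup E] [NormedSpace ℂ E] (J : E →ₗᵢ[ℂ] A)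

/-- The `i`-th representation on `E`. -/
noncomputable def repL {H' : Type*} [NormedAddCommGroup H'] [InnerProductSpace ℂ H']
    [CompleteSpace H'] (σ : A →⋆ₙₐ[ℂ] (H' →L[ℂ] H')) : E →L[ℂ] (H' →L[ℂ] H') :=
  LinearMap.mkContinuous
    { toFun := fun x => σ (J x)
      map_add' := fun x y => by simp
      map_smul' := fun c x => by simp } 1 (fun x => by
        change ‖σ (J x)‖ ≤ 1 * ‖x‖
        rw [one_mul, ← J.norm_map x]
        exact NonUnitalStarAlgHom.norm_apply_le σ (J x))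

theorem repL_apply {H' : Type*} [NormedAddCommGroup H'] [InnerProductSpace ℂ H']
    [CompleteSpace H'] (σ : A →⋆ₙₐ[ℂ] (H' →L[ℂ] H')) (x : E) : repL J σ x = σ (J x) := rfl

theorem norm_rep_sub {H' : Type*} [NormedAddCommGroup H'] [InnerProductSpace ℂ H']
    [CompleteSpace H'] (σ : A →⋆ₙₐ[ℂ] (H' →L[ℂ] H')) {K : Set E} (q y : K) :
    ‖σ (J (q : E) - J (y : E))‖ ≤ dist q y := by
  refine (NonUnitalStarAlgHom.norm_apply_le σ _).trans ?_
  rw [← map_sub, J.norm_map, Subtype.dist_eq, dist_eq_norm]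

/-- One step of the chain. -/
theorem chain_step (hcomp : ∀ i a, (∀ j < i, ρ j a = 0) → IsCompactOperator (ρ i a))
    {K : Set E} {D : ℝ} (hD : ∀ x y : K, dist x y ≤ D) (V : Ultrafilter K) (z : K)
    (hV : WCv K V z) (k : ℕ) (hk : k < n) (y : K) (ε : ℝ) (hε : 0 < ε) :
    ∀ᶠ v in (V : Filter K), ∀ q : K,
      nk ρ (k + 1) (J (q : E) - J (z : E)) / (1 - (1 / 32 : ℝ) ^ (k + 1)) ≤
        max (max ((stg k).1 * dist q y) ((stg k).2 * dist q v))
          (nk ρ k (J (y : E) - J (z : E)) / (1 - (1 / 32 : ℝ) ^ k)) + ε := by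
  obtain ⟨hp, hp1⟩ := pow_facts k
  set d := (1 / 32 : ℝ) ^ k with hd
  have hd1 : (1 / 32 : ℝ) ^ (k + 1) = d / 32 := by rw [pow_succ, ← hd]; ring
  rw [hd1]
  set i : Fin n := ⟨k, hk⟩ with hi
  set a : A := J (y : E) - J (z : E) with ha
  set κ := nk ρ k a with hκ
  have hκ0 : 0 ≤ κ := nk_nonneg ρ k a
  set κ' := κ + ε / 4 with hκ'
  have hκκ' : κ < κ' := by rw [hκ']; linarith
  set x := ρ i a with hx
  have hsmall : ∀ j < i, ‖ρ j a‖ ≤ κ := fun j hj => le_nk ρ a hj
  have hc : IsCompactOperator (cfc (gcut κ κ') (star x * x) : H i →L[ℂ] H i) := by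
    have h1 := cut_compact ρ hcomp i (star a * a) (IsSelfAdjoint.star_mul_self a) hκ0 hκκ' (by
      intro j hj
      rw [map_mul, map_star, CStarRing.norm_star_mul_self, ← pow_two]
      exact pow_le_pow_left₀ (norm_nonneg _) (hsmall j hj) 2)
    rwa [map_mul, map_star] at h1
  have hc' : IsCompactOperator (cfc (gcut κ κ') (x * star x) : H i →L[ℂ] H i) := by
    have h1 := cut_compact ρ hcomp i (a * star a) (IsSelfAdjoint.mul_star_self a) hκ0 hκκ' (by
      intro j hj
      rw [map_mul, map_star, CStarRing.norm_self_mul_star, ← pow_two]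
      exact pow_le_pow_left₀ (norm_nonneg _) (hsmall j hj) 2)
    rwa [map_mul, map_star] at h1
  have hev := comp_small (repL J (ρ i)) _ _ hc hc' hD V z hV (show 0 < ε / 4 by positivity)
  filter_upwards [hev] with v hv q
  set C := max (max ((stg k).1 * dist q y) ((stg k).2 * dist q v)) (κ / (1 - d)) with hC
  have hC1 : (stg k).1 * dist q y ≤ C := (le_max_left _ _).trans (le_max_left _ _)
  have hC2 : (stg k).2 * dist q v ≤ C := (le_max_right _ _).trans (le_max_left _ _)
  have hC3 : κ / (1 - d) ≤ C := le_max_right _ _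
  have hC0 : 0 ≤ C := le_trans (mul_nonneg (div_nonneg (by norm_num) hp.le) dist_nonneg) hC1
  have hqy : dist q y ≤ d / 8 * C := by
    change 8 / d * dist q y ≤ C at hC1
    rw [div_mul_eq_mul_div, div_le_iff₀ hp] at hC1
    linarith
  have hqv : dist q v ≤ (1 - d / 16) * C := by
    change 1 / (1 - d / 16) * dist q v ≤ C at hC2
    rw [one_div, inv_mul_le_iff₀ (by linarith)] at hC2
    exact hC2
  have hκC : κ ≤ (1 - d) * C := by
    rcases Nat.eq_zero_or_pos k with h0 | h0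
    · have h1 : κ = 0 := by rw [hκ, h0]; exact nk_zero ρ a
      rw [h1]
      exact mul_nonneg (by linarith) hC0
    · have h1 : d ≤ 1 / 32 := by
        calc d ≤ (1 / 32 : ℝ) ^ 1 := pow_le_pow_of_le_one (by norm_num) (by norm_num) h0
          _ = 1 / 32 := pow_one _
      rw [div_le_iff₀ (by linarith)] at hC3
      linarith
  have hstep : ∀ j : Fin n, j.val < k + 1 →
      ‖ρ j (J (q : E) - J (z : E))‖ ≤ (1 - d / 32) * C + ε / 2 := by
    intro j hj
    rcases Nat.lt_succ_iff_lt_or_eq.1 hj with hj | hj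
    · have e1 : J (q : E) - J (z : E) = a + (J (q : E) - J (y : E)) := by rw [ha]; abel
      rw [e1, map_add]
      refine (norm_add_le _ _).trans ?_
      have e2 := hsmall j hj
      have e3 := norm_rep_sub J (ρ j) q y
      nlinarith
    · have hji : j = i := Fin.ext hj
      rw [hji]
      have e1 := stage_est x (ρ i (J (q : E) - J (z : E))) (ρ i (J (q : E) - J (v : E)))
        (cfc (gcut κ κ') (star x * x)) (cfc (gcut κ κ') (x * star x))
        (cfc (hcut κ κ') (star x * x)) (cfc (hcut κ κ') (x * star x))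
        (C := C) (κ := κ') (δ := d) (ε := ε / 4) hp.le hp1 hC0 (by positivity)
        (cut_pyth (IsSelfAdjoint.star_mul_self x) κ κ')
        (cut_pyth (IsSelfAdjoint.mul_star_self x) κ κ')
        (cut_near (IsSelfAdjoint.star_mul_self x) κ κ')
        (cut_near (IsSelfAdjoint.mul_star_self x) κ κ')
        (cut_split x κ κ') (cut_small x hκ0 hκκ')
        (cfc_symm _ _) (cfc_symm _ _) (by rw [hκ']; linarith) (by
          rw [hx, ← map_sub]
          have e2 : J (q : E) - J (z : E) - a = J (q : E) - J (y : E) := by rw [ha]; abel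
          rw [e2]
          exact (norm_rep_sub J (ρ i) q y).trans hqy)
        ((norm_rep_sub J (ρ i) q v).trans hqv) (by
          have e2 : ρ i (J (q : E) - J (z : E)) - ρ i (J (q : E) - J (v : E)) =
              repL J (ρ i) v - repL J (ρ i) z := by
            rw [repL_apply, repL_apply]
            simp only [map_sub]
            abel
          rw [e2]
          exact hv)
      linarith
  have hnk : nk ρ (k + 1) (J (q : E) - J (z : E)) ≤ (1 - d / 32) * C + ε / 2 :=
    nk_le ρ (by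
      have : 0 ≤ (1 - d / 32) * C := mul_nonneg (by linarith) hC0
      linarith) hstep
  rw [div_le_iff₀ (by linarith)]
  nlinarith

theorem chain_lst (hn : 0 < n)
    (hcomp : ∀ i a, (∀ j < i, ρ j a = 0) → IsCompactOperator (ρ i a))
    (hinj : ∀ a, (∀ i, ρ i a = 0) → a = 0)
    {K : Set E} {D : ℝ} (hD : ∀ x y : K, dist x y ≤ D) (V : Ultrafilter K) (z : K)
    (hV : WCv K V z) (r k : ℕ) (hkr : k + r = n) :
    Chn V z (Lst k r) (fun y : K => nk ρ k (J (y : E) - J (z : E)) / (1 - (1 / 32 : ℝ) ^ k)) := by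
  induction r generalizing k with
  | zero =>
    intro q
    have hk : k = n := by omega
    subst hk
    have h1 := norm_le_nk ρ hinj (J (q : E) - J (z : E))
    rw [← map_sub, J.norm_map, ← dist_eq_norm, ← Subtype.dist_eq, map_sub] at h1
    refine h1.trans ?_
    obtain ⟨hp, hp1⟩ := pow_facts k
    have h2 : (1 / 32 : ℝ) ^ k ≤ 1 / 32 := by
      calc (1 / 32 : ℝ) ^ k ≤ (1 / 32 : ℝ) ^ 1 :=
            pow_le_pow_of_le_one (by norm_num) (by norm_num) hn
        _ = 1 / 32 := pow_one _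
    rw [le_div_iff₀ (by linarith)]
    have h3 := nk_nonneg ρ k (J (q : E) - J (z : E))
    nlinarith
  | succ r ih =>
    exact ⟨_, fun y ε hε => chain_step ρ J hcomp hD V z hV k (by omega) y ε hε,
      ih (k + 1) (by omega)⟩

end

/-- Subspaces of C*-algebras with a finite chain of representations have the weak fixed point
property for left reversible semigroups. -/
theorem main_chain {A : Type*} [NonUnitalCStarAlgebra A] {n : ℕ} {H : Fin n → Type*}
    [∀ i, NormedAddCommGroup (H i)] [∀ i, InnerProductSpace ℂ (H i)] [∀ i, CompleteSpace (H i)]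
    (ρ : ∀ i, A →⋆ₙₐ[ℂ] (H i →L[ℂ] H i))
    (hcomp : ∀ i a, (∀ j < i, ρ j a = 0) → IsCompactOperator (ρ i a))
    (hinj : ∀ a, (∀ i, ρ i a = 0) → a = 0)
    {E : Type*} [NormedAddCommGroup E] [NormedSpace ℂ E] (J : E →ₗᵢ[ℂ] A)
    (S : Type*) [Semigroup S] [TopologicalSpace S]
    (hrev : ∀ a b : S, (closure (range (a * ·)) ∩ closure (range (b * ·))).Nonempty) :
    WFPFor E S := by
  rcases Nat.eq_zero_or_pos n with hn | hn
  · intro K hne _ _ act _ _ _
    obtain ⟨x, hx⟩ := hne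
    have hE : ∀ u v : E, u = v := by
      intro u v
      have h1 : ∀ a : A, a = 0 := fun a => hinj a fun i => by
        subst hn
        exact i.elim0
      exact J.injective ((h1 _).trans (h1 _).symm)
    exact ⟨⟨x, hx⟩, fun s => Subtype.ext (hE _ _)⟩
  · obtain ⟨hθ0, hθ1⟩ := theta_facts n
    refine wfp_of_chn _ hθ0 hθ1 (Lst 0 n) ?_ (lc_lst n 0 n (by omega)) ?_ S hrev
    · obtain ⟨m, rfl⟩ : ∃ m, n = m + 1 := ⟨n - 1, by omega⟩
      exact List.cons_ne_nil _ _
    · intro K D hD V z hV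
      refine ⟨_, fun y => ?_, chain_lst ρ J hn hcomp hinj hD V z hV n 0 (by omega)⟩
      simp

end BGC
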