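import Mathlib

/-! Extension of representations from a closed ideal of a C*-algebra. -/

namespace BGC.Rep

open Filter Topology Set
open scoped InnerProductSpace

theorem exists_approx (B : Type*) [NonUnitalCStarAlgebra B] :
    ∃ 𝒰 : Ultrafilter B, (∀ b : B, Tendsto (fun u => b * u) 𝒰 (𝓝 b)) ∧
      (∀ b : B, Tendsto (fun u => u * b) 𝒰 (𝓝 b)) ∧ (∀ᶠ u in (𝒰 : Filter B), ‖u‖ ≤ 1) := by
  letI : PartialOrder B := CStarAlgebra.spectralOrder B
  haveI : StarOrderedRing B := CStarAlgebra.spectralOrderedRing B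
  have h := CStarAlgebra.increasingApproximateUnit B
  haveI := h.neBot
  refine ⟨Ultrafilter.of (CStarAlgebra.approximateUnit B), fun b => ?_, fun b => ?_, ?_⟩
  · exact (h.tendsto_mul_left b).mono_left (Ultrafilter.of_le _)
  · exact (h.tendsto_mul_right b).mono_left (Ultrafilter.of_le _)
  · exact (Ultrafilter.of_le _) h.eventually_norm

theorem ulim_exists {B : Type*} (𝒰 : Ultrafilter B) (f : B → ℂ) (C : ℝ)
    (h : ∀ᶠ u in (𝒰 : Filter B), ‖f u‖ ≤ C) : ∃ c, ‖c‖ ≤ C ∧ Tendsto f 𝒰 (𝓝 c) := by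
  have hmem : Metric.closedBall (0 : ℂ) C ∈ 𝒰.map f := by
    rw [Ultrafilter.mem_map]
    filter_upwards [h] with u hu
    simpa using hu
  obtain ⟨c, hc, hle⟩ := (isCompact_closedBall (0 : ℂ) C).ultrafilter_le_nhds' (𝒰.map f) hmem
  exact ⟨c, by simpa using hc, hle⟩

section

variable {H : Type*} [NormedAddCommGroup H] [InnerProductSpace ℂ H] [CompleteSpace H]

theorem exists_op {B : Type*} (𝒰 : Ultrafilter B) (F : B → (H →L[ℂ] H)) (C : ℝ)
    (h : ∀ᶠ u in (𝒰 : Filter B), ‖F u‖ ≤ C) :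
    ∃ T : H →L[ℂ] H, ∀ ξ η, Tendsto (fun u => ⟪F u ξ, η⟫_ℂ) 𝒰 (𝓝 ⟪T ξ, η⟫_ℂ) := by
  have hb : ∀ ξ η : H, ∃ c, ‖c‖ ≤ C * ‖ξ‖ * ‖η‖ ∧
      Tendsto (fun u => ⟪F u ξ, η⟫_ℂ) 𝒰 (𝓝 c) := by
    intro ξ η
    apply ulim_exists
    filter_upwards [h] with u hu
    calc ‖⟪F u ξ, η⟫_ℂ‖ ≤ ‖F u ξ‖ * ‖η‖ := norm_inner_le_norm _ _
      _ ≤ (‖F u‖ * ‖ξ‖) * ‖η‖ := by gcongr; exact (F u).le_opNorm ξ
      _ ≤ C * ‖ξ‖ * ‖η‖ := by gcongr
  choose L hL hLt using hb
  let B1 : H →ₗ⋆[ℂ] H →ₗ[ℂ] ℂ := LinearMap.mk₂'ₛₗ (starRingEnd ℂ) (RingHom.id ℂ) L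
    (fun a b c => tendsto_nhds_unique (hLt (a + b) c)
      (((hLt a c).add (hLt b c)).congr fun u => by rw [map_add, inner_add_left]))
    (fun t a c => tendsto_nhds_unique (hLt (t • a) c)
      (((hLt a c).const_mul (starRingEnd ℂ t)).congr fun u => by
        rw [map_smul, inner_smul_left]))
    (fun a b c => tendsto_nhds_unique (hLt a (b + c))
      (((hLt a b).add (hLt a c)).congr fun u => by rw [inner_add_right]))
    (fun t a c => tendsto_nhds_unique (hLt a (t • c))
      (((hLt a c).const_mul t).congr fun u => by rw [inner_smul_right]))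
  let B2 : H →L⋆[ℂ] H →L[ℂ] ℂ := B1.mkContinuous₂ C (fun x y => hL x y)
  refine ⟨InnerProductSpace.continuousLinearMapOfBilin B2, fun ξ η => ?_⟩
  rw [InnerProductSpace.continuousLinearMapOfBilin_apply]
  exact hLt ξ η

variable {A : Type*} [NonUnitalCStarAlgebra A] {I : NonUnitalStarSubalgebra ℂ A}
  (π : I →⋆ₙₐ[ℂ] (H →L[ℂ] H))

theorem pi_star (i : I) (x y : H) : ⟪π i x, y⟫_ℂ = ⟪x, π (star i) y⟫_ℂ := by
  rw [map_star, ContinuousLinearMap.star_eq_adjoint, ContinuousLinearMap.adjoint_inner_right]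

theorem pi_star' (i : I) (x y : H) : ⟪x, π i y⟫_ℂ = ⟪π (star i) x, y⟫_ℂ := by
  rw [map_star, ContinuousLinearMap.star_eq_adjoint, ContinuousLinearMap.adjoint_inner_left]

theorem pi_mul (i j : I) (x : H) : π (i * j) x = π i (π j x) := by
  rw [map_mul]; rfl

/-- A vector orthogonal to the range and to the null space of a representation is zero. -/
theorem eq_zero_of_orth (x : H) (h1 : ∀ i y, ⟪x, π i y⟫_ℂ = 0)
    (h2 : ∀ y, (∀ i, π i y = 0) → ⟪x, y⟫_ℂ = 0) : x = 0 := by
  have h3 : ∀ i, π i x = 0 := by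
    intro i
    rw [← inner_self_eq_zero (𝕜 := ℂ), pi_star π, ← pi_mul]
    exact h1 _ _
  exact inner_self_eq_zero.1 (h2 x h3)

theorem op_eq_zero (R : H →L[ℂ] H) (h1 : ∀ i y, R (π i y) = 0)
    (h2 : ∀ y, (∀ i, π i y = 0) → R y = 0) : R = 0 := by
  have h3 : ∀ z, ContinuousLinearMap.adjoint R z = 0 := by
    intro z
    refine eq_zero_of_orth π _ (fun i y => ?_) (fun y hy => ?_)
    · rw [ContinuousLinearMap.adjoint_inner_left, h1, inner_zero_right]
    · rw [ContinuousLinearMap.adjoint_inner_left, h2 y hy, inner_zero_right]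
  ext z
  rw [ContinuousLinearMap.zero_apply, ← inner_self_eq_zero (𝕜 := ℂ),
    ← ContinuousLinearMap.adjoint_inner_right, h3, inner_zero_right]

theorem op_ext (R T : H →L[ℂ] H) (h1 : ∀ i y, R (π i y) = T (π i y))
    (h2 : ∀ y, (∀ i, π i y = 0) → R y = T y) : R = T := by
  rw [← sub_eq_zero]
  refine op_eq_zero π _ (fun i y => ?_) (fun y hy => ?_)
  · rw [ContinuousLinearMap.sub_apply, h1, sub_self]
  · rw [ContinuousLinearMap.sub_apply, h2 y hy, sub_self]

/-- Extension of representations from closed ideals. -/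
theorem exists_ext (hIc : IsClosed (I : Set A)) (hI : ∀ a : A, ∀ x ∈ I, a * x ∈ I) :
    ∃ ρ : A →⋆ₙₐ[ℂ] (H →L[ℂ] H), ∀ x : I, ρ (x : A) = π x := by
  haveI := hIc
  obtain ⟨𝒰, hU1, hU2, hU3⟩ := exists_approx I
  let lm : A → I → I := fun a u => ⟨a * u, hI a u u.2⟩
  have hlm : ∀ a (u : I), ‖lm a u‖ ≤ ‖a‖ * ‖u‖ := fun a u => norm_mul_le a (u : A)
  have hpn : ∀ i, ‖π i‖ ≤ ‖i‖ := fun i => NonUnitalStarAlgHom.norm_apply_le π i
  have hpc : Continuous π := by
    haveI : ContinuousLinearMapClass (I →⋆ₙₐ[ℂ] (H →L[ℂ] H)) ℂ I (H →L[ℂ] H) :=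
      NonUnitalStarAlgHom.instContinuousLinearMapClassComplex
    exact map_continuous π
  have hT : ∀ a : A, ∃ T : H →L[ℂ] H, ∀ ξ η, Tendsto (fun u => ⟪π (lm a u) ξ, η⟫_ℂ) 𝒰
      (𝓝 ⟪T ξ, η⟫_ℂ) := by
    intro a
    apply exists_op 𝒰 (fun u => π (lm a u)) ‖a‖
    filter_upwards [hU3] with u hu
    calc ‖π (lm a u)‖ ≤ ‖lm a u‖ := hpn _
      _ ≤ ‖a‖ * ‖u‖ := hlm a u
      _ ≤ ‖a‖ * 1 := by gcongr
      _ = ‖a‖ := mul_one _
  choose T hT using hT
  -- (P1)
  have hP1 : ∀ a i ξ, T a (π i ξ) = π (lm a i) ξ := by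
    intro a i ξ
    refine ext_inner_right ℂ fun η => ?_
    refine tendsto_nhds_unique (hT a (π i ξ) η) ?_
    have h1 : Tendsto (fun u : I => lm a (u * i)) 𝒰 (𝓝 (lm a i)) := by
      rw [tendsto_iff_norm_sub_tendsto_zero]
      have h2 := tendsto_iff_norm_sub_tendsto_zero.1 (hU2 i)
      have h3 := h2.const_mul ‖a‖
      rw [mul_zero] at h3
      refine squeeze_zero (fun _ => norm_nonneg _) (fun u => ?_) h3
      have h4 : lm a (u * i) - lm a i = lm a (u * i - i) := by
        apply Subtype.ext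
        change a * ((u : A) * i) - a * i = a * ((u : A) * i - i)
        rw [mul_sub]
      rw [h4]
      exact hlm _ _
    have h2 : Tendsto (fun u : I => ⟪π (lm a (u * i)) ξ, η⟫_ℂ) 𝒰 (𝓝 ⟪π (lm a i) ξ, η⟫_ℂ) := by
      have hc : Continuous fun j : I => ⟪π j ξ, η⟫_ℂ :=
        (hpc.clm_apply continuous_const).inner continuous_const
      exact (hc.tendsto _).comp h1
    refine h2.congr fun u => ?_
    have h5 : lm a (u * i) = lm a u * i := by
      apply Subtype.ext
      change a * ((u : A) * i) = (a * u) * i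
      rw [mul_assoc]
    rw [h5, pi_mul]
  -- (P2)
  have hP2 : ∀ a ξ, (∀ i, π i ξ = 0) → T a ξ = 0 := by
    intro a ξ hξ
    refine ext_inner_right ℂ fun η => ?_
    refine tendsto_nhds_unique (hT a ξ η) ?_
    simp only [hξ, inner_zero_left]
    exact tendsto_const_nhds
  -- products of ideal elements
  have hst : ∀ a (i j : I), star i * lm a j = star (lm (star a) i) * j := by
    intro a i j
    apply Subtype.ext
    change star (i : A) * (a * j) = star (star a * (i : A)) * j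
    rw [star_mul, star_star, mul_assoc]
  have hstar : ∀ a, T (star a) = star (T a) := by
    intro a
    rw [ContinuousLinearMap.star_eq_adjoint]
    refine op_ext π _ _ (fun i ξ => ?_) (fun ξ hξ => ?_)
    · rw [hP1, ← sub_eq_zero]
      refine eq_zero_of_orth π _ (fun j η => ?_) (fun y hy => ?_)
      · rw [inner_sub_left, ContinuousLinearMap.adjoint_inner_left, hP1, pi_star, ← pi_mul,
          pi_star, ← pi_mul, hst a i j, sub_self]
      · rw [inner_sub_left, ContinuousLinearMap.adjoint_inner_left, hP2 a y hy, inner_zero_right,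
          pi_star, hy, inner_zero_right, sub_self]
    · rw [hP2 _ ξ hξ]
      symm
      refine eq_zero_of_orth π _ (fun j η => ?_) (fun y hy => ?_)
      · rw [ContinuousLinearMap.adjoint_inner_left, hP1, pi_star', hξ, inner_zero_left]
      · rw [ContinuousLinearMap.adjoint_inner_left, hP2 a y hy, inner_zero_right]
  have hadd : ∀ a b, T (a + b) = T a + T b := by
    intro a b
    refine op_ext π _ _ (fun i ξ => ?_) (fun ξ hξ => ?_)
    · rw [ContinuousLinearMap.add_apply, hP1, hP1, hP1, ← ContinuousLinearMap.add_apply, ← map_add]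
      congr 2
      apply Subtype.ext
      exact add_mul _ _ _
    · rw [ContinuousLinearMap.add_apply, hP2 _ ξ hξ, hP2 _ ξ hξ, hP2 _ ξ hξ, add_zero]
  have hsmul : ∀ (c : ℂ) a, T (c • a) = c • T a := by
    intro c a
    refine op_ext π _ _ (fun i ξ => ?_) (fun ξ hξ => ?_)
    · rw [ContinuousLinearMap.smul_apply, hP1, hP1, ← ContinuousLinearMap.smul_apply, ← map_smul]
      congr 2
      apply Subtype.ext
      exact smul_mul_assoc _ _ _
    · rw [ContinuousLinearMap.smul_apply, hP2 _ ξ hξ, hP2 _ ξ hξ, smul_zero]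
  have hmul : ∀ a b, T (a * b) = T a * T b := by
    intro a b
    refine op_ext π _ _ (fun i ξ => ?_) (fun ξ hξ => ?_)
    · change _ = T a (T b (π i ξ))
      rw [hP1, hP1, hP1]
      congr 2
      apply Subtype.ext
      exact mul_assoc _ _ _
    · change _ = T a (T b ξ)
      rw [hP2 _ ξ hξ, hP2 _ ξ hξ, map_zero]
  refine ⟨{ toFun := T
            map_smul' := hsmul
            map_zero' := by simpa using hsmul 0 0
            map_add' := hadd
            map_mul' := hmul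
            map_star' := hstar }, fun x => ?_⟩
  change T (x : A) = π x
  refine ContinuousLinearMap.ext fun ξ => ?_
  refine ext_inner_right ℂ fun η => ?_
  refine tendsto_nhds_unique (hT x ξ η) ?_
  have hc : Continuous fun j : I => ⟪π j ξ, η⟫_ℂ :=
    (hpc.clm_apply continuous_const).inner continuous_const
  exact (hc.tendsto _).comp (hU1 x)

end

end BGC.Rep
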