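import Mathlib

/-! Definitions used in the statement on C*-algebras with a finite composition series. -/

namespace BGC.Stmt

/-- `π` is a *-representation of `I` on `H` (bounded operators, by the closed graph theorem). -/
structure IsRep {A H : Type*} [NonUnitalCStarAlgebra A] [NormedAddCommGroup H]
    [InnerProductSpace ℂ H] (I : Set A) (π : A → H → H) : Prop where
  lin_add : ∀ a ∈ I, ∀ ξ η, π a (ξ + η) = π a ξ + π a η
  lin_smul : ∀ a ∈ I, ∀ (c : ℂ) ξ, π a (c • ξ) = c • π a ξ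
  add : ∀ a ∈ I, ∀ b ∈ I, ∀ ξ, π (a + b) ξ = π a ξ + π b ξ
  smul : ∀ (c : ℂ), ∀ a ∈ I, ∀ ξ, π (c • a) ξ = c • π a ξ
  mul : ∀ a ∈ I, ∀ b ∈ I, ∀ ξ, π (a * b) ξ = π a (π b ξ)
  star : ∀ a ∈ I, ∀ ξ η, inner ℂ (π (star a) ξ) η = inner ℂ ξ (π a η)

/-- `I` has a *-representation by compact operators on a Hilbert space with kernel `J`. -/
def CompactRep.{w, v} {A : Type v} [NonUnitalCStarAlgebra A] (I J : Set A) : Prop :=
  ∃ (H : Type w) (_ : NormedAddCommGroup H) (_ : InnerProductSpace ℂ H) (_ : CompleteSpace H)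
    (π : A → H → H), IsRep I π ∧ (∀ x ∈ I, IsCompactOperator (π x)) ∧
      ∀ x, x ∈ J ↔ x ∈ I ∧ ∀ ξ, π x ξ = 0

/-- `A` has a finite chain of closed ideals `A = I 0 ⊇ I 1 ⊇ ... ⊇ I n = 0` such that each
quotient `I k / I (k + 1)` is a C*-algebra of compact operators: `I k` has a *-representation by
compact operators on a Hilbert space with kernel `I (k + 1)`. -/
def FiniteCompactSeries.{w, v} (A : Type v) [NonUnitalCStarAlgebra A] : Prop :=
  ∃ (n : ℕ) (I : ℕ → NonUnitalStarSubalgebra ℂ A), (∀ x, x ∈ I 0) ∧ (∀ x ∈ I n, x = 0) ∧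
    (∀ k, IsClosed (I k : Set A)) ∧ (∀ k, ∀ a : A, ∀ x ∈ I k, a * x ∈ I k ∧ x * a ∈ I k) ∧
    ∀ k < n, CompactRep.{w} (I k : Set A) (I (k + 1) : Set A)

end BGC.Stmt
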