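import Pool.Agent.Work.MP_76d3fb_an.C.ChainC
import Pool.Agent.Work.MP_76d3fb_an.C.Ext
import Pool.Agent.Work.MP_76d3fb_an.C.StmtC

/-! Subspaces of C*-algebras with a finite composition series. -/

namespace BGC

open Filter Topology Set BGC.Stmt

/-- The *-homomorphism of a representation by compact operators. -/
theorem exists_hom {A H : Type*} [NonUnitalCStarAlgebra A] [NormedAddCommGroup H]
    [InnerProductSpace ℂ H] [CompleteSpace H] (I : NonUnitalStarSubalgebra ℂ A) (π : A → H → H)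
    (h : IsRep (I : Set A) π) (hc : ∀ x ∈ (I : Set A), IsCompactOperator (π x)) :
    ∃ P : I →⋆ₙₐ[ℂ] (H →L[ℂ] H), ∀ (x : I) (ξ : H), P x ξ = π x ξ := by
  let L : I → H →ₗ[ℂ] H := fun x =>
    { toFun := π x
      map_add' := h.lin_add x x.2
      map_smul' := h.lin_smul x x.2 }
  have hL : ∀ x, IsCompactOperator (L x) := fun x => hc x x.2
  let P : I → H →L[ℂ] H := fun x => ContinuousLinearMap.mkOfIsCompactOperator (hL x)
  have hP : ∀ x ξ, P x ξ = π x ξ := fun x ξ => rfl
  refine ⟨{ toFun := P, map_smul' := ?_, map_zero' := ?_, map_add' := ?_, map_mul' := ?_,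
            map_star' := ?_ }, hP⟩
  · intro c x
    refine ContinuousLinearMap.ext fun ξ => ?_
    change π (c • (x : A)) ξ = c • π x ξ
    exact h.smul c x x.2 ξ
  · refine ContinuousLinearMap.ext fun ξ => ?_
    change π (0 : A) ξ = 0
    have := h.smul 0 0 (zero_mem I) ξ
    simpa using this
  · intro x y
    refine ContinuousLinearMap.ext fun ξ => ?_
    change π ((x : A) + y) ξ = π x ξ + π y ξ
    exact h.add x x.2 y y.2 ξ
  · intro x y
    refine ContinuousLinearMap.ext fun ξ => ?_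
    change π ((x : A) * y) ξ = π x (π y ξ)
    exact h.mul x x.2 y y.2 ξ
  · intro x
    rw [ContinuousLinearMap.star_eq_adjoint]
    rw [ContinuousLinearMap.eq_adjoint_iff]
    intro ξ η
    change inner ℂ (π (star (x : A)) ξ) η = inner ℂ ξ (π x η)
    exact h.star x x.2 ξ η

theorem main_series.{u, v, w, x} {E : Type u} [NormedAddCommGroup E] [NormedSpace ℂ E]
    {A : Type v} [NonUnitalCStarAlgebra A] (hA : FiniteCompactSeries.{w} A) (J : E →ₗᵢ[ℂ] A)
    (S : Type x) [Semigroup S] [TopologicalSpace S]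
    (hrev : ∀ a b : S, (closure (range (a * ·)) ∩ closure (range (b * ·))).Nonempty) :
    WFPFor E S := by
  obtain ⟨n, I, h0, hn, hcl, hid, hq⟩ := hA
  unfold CompactRep at hq
  choose H h1 h2 h3 π hπr hπc hπk using hq
  have hP : ∀ (k : ℕ) (hk : k < n), ∃ P : I k →⋆ₙₐ[ℂ] (H k hk →L[ℂ] H k hk),
      ∀ (x : I k) (ξ : H k hk), P x ξ = π k hk x ξ := fun k hk =>
    exists_hom (I k) (π k hk) (hπr k hk) (hπc k hk)
  choose P hP using hP
  have hext : ∀ (k : ℕ) (hk : k < n), ∃ ρ : A →⋆ₙₐ[ℂ] (H k hk →L[ℂ] H k hk),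
      ∀ y : I k, ρ (y : A) = P k hk y := fun k hk =>
    Rep.exists_ext (P k hk) (hcl k) fun a y hy => (hid k a y hy).1
  choose ρ hρ using hext
  have hmem : ∀ (k : ℕ) (hk : k ≤ n) (a : A), (∀ (j : ℕ) (hj : j < k), ρ j (by omega) a = 0) →
      a ∈ I k := by
    intro k
    induction k with
    | zero =>
      intro _ a _
      exact h0 a
    | succ k ih =>
      intro hk a ha
      have hak := ih (by omega) a fun j hj => ha j (by omega)
      have h4 := (hπk k (by omega) a).2 ⟨hak, fun ξ => by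
        rw [← hP k (by omega) ⟨a, hak⟩ ξ, ← hρ k (by omega) ⟨a, hak⟩, ha k (by omega)]
        rfl⟩
      exact h4
  refine main_chain (n := n) (H := fun i => H i.1 i.2) (fun i => ρ i.1 i.2) (fun i a ha => ?_)
    (fun a ha => ?_) J S hrev
  · have hak := hmem i.1 i.2.le a fun j hj => ha ⟨j, by omega⟩ hj
    have h4 := hρ i.1 i.2 ⟨a, hak⟩
    have h5 : (P i.1 i.2 ⟨a, hak⟩ : H i.1 i.2 → H i.1 i.2) = π i.1 i.2 a :=
      funext fun ξ => hP i.1 i.2 ⟨a, hak⟩ ξ
    change IsCompactOperator (ρ i.1 i.2 a)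
    rw [h4, h5]
    exact hπc _ _ _ hak
  · have hak := hmem n le_rfl a fun j hj => ha ⟨j, hj⟩
    exact hn a hak

end BGC
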