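import Pool.Agent.Work.MP_76d3fb_an.C.RProp

/-! The stages used for chains of representations. -/

namespace BGC

/-- Stage number `k`: weights `1/τ`, `1/μ` with `τ = 32⁻ᵏ/8`, `μ = 1 - 32⁻ᵏ/16`. -/
noncomputable def stg (k : ℕ) : ℝ × ℝ := (8 / (1 / 32 : ℝ) ^ k, 1 / (1 - (1 / 32 : ℝ) ^ k / 16))

/-- The stages `k, ..., k + r - 1`. -/
noncomputable def Lst (k : ℕ) : ℕ → List (ℝ × ℝ)
  | 0 => []
  | r + 1 => stg k :: Lst (k + 1) r

theorem pow_facts (k : ℕ) : 0 < (1 / 32 : ℝ) ^ k ∧ (1 / 32 : ℝ) ^ k ≤ 1 :=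
  ⟨by positivity, pow_le_one₀ (by norm_num) (by norm_num)⟩

theorem lc_stg (n k : ℕ) (hk : k < n) : 0 ≤ (stg k).1 ∧ 0 ≤ (stg k).2 ∧ ∃ N m : ℕ, m ≤ N + 1 ∧
    (stg k).1 * ((m : ℝ) / (N + 1)) ≤ 1 - (1 / 32 : ℝ) ^ (n + 1) ∧
    (stg k).2 * (1 - (m : ℝ) / (N + 1)) ≤ 1 - (1 / 32 : ℝ) ^ (n + 1) := by
  obtain ⟨hp, hp1⟩ := pow_facts k
  set d := (1 / 32 : ℝ) ^ k with hd
  have hmono : (1 / 32 : ℝ) ^ (n + 1) ≤ d / 32 := by
    have h1 : (1 / 32 : ℝ) ^ (n + 1) ≤ (1 / 32 : ℝ) ^ (k + 1) :=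
      pow_le_pow_of_le_one (by norm_num) (by norm_num) (by omega)
    rw [pow_succ (1 / 32 : ℝ) k] at h1
    linarith
  have h16 : 0 < 1 - d / 16 := by linarith
  have hN : (((32 ^ (k + 1) - 1 : ℕ) : ℝ) + 1) = 32 / d := by
    have h1 : 1 ≤ 32 ^ (k + 1) := Nat.one_le_pow _ _ (by norm_num)
    rw [Nat.cast_sub h1]
    push_cast
    rw [hd, pow_succ, one_div, inv_pow]
    field_simp
    ring
  refine ⟨?_, ?_, 32 ^ (k + 1) - 1, 3, ?_, ?_, ?_⟩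
  · exact div_nonneg (by norm_num) hp.le
  · exact div_nonneg (by norm_num) h16.le
  · have h1 : 32 ≤ 32 ^ (k + 1) := by
      calc 32 = 32 ^ 1 := (pow_one 32).symm
        _ ≤ _ := Nat.pow_le_pow_right (by norm_num) (by omega)
    omega
  · rw [hN]
    change 8 / d * (((3 : ℕ) : ℝ) / (32 / d)) ≤ _
    have : 8 / d * (((3 : ℕ) : ℝ) / (32 / d)) = 3 / 4 := by
      push_cast
      field_simp
      norm_num
    rw [this]
    linarith
  · rw [hN]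
    change 1 / (1 - d / 16) * (1 - ((3 : ℕ) : ℝ) / (32 / d)) ≤ _
    have h3 : 1 / (1 - d / 16) * (1 - ((3 : ℕ) : ℝ) / (32 / d)) ≤ 1 - d / 32 := by
      rw [one_div, inv_mul_le_iff₀ h16]
      push_cast
      have : (3 : ℝ) / (32 / d) = 3 * d / 32 := by field_simp
      rw [this]
      nlinarith
    linarith

theorem lc_lst (n k r : ℕ) (h : k + r ≤ n) : LC (1 - (1 / 32 : ℝ) ^ (n + 1)) (Lst k r) := by
  induction r generalizing k with
  | zero =>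
    intro p hp
    simp [Lst] at hp
  | succ r ih =>
    intro p hp
    rcases List.mem_cons.1 hp with rfl | hp
    · exact lc_stg n k (by omega)
    · exact ih (k + 1) (by omega) p hp

theorem theta_facts (n : ℕ) :
    0 ≤ 1 - (1 / 32 : ℝ) ^ (n + 1) ∧ 1 - (1 / 32 : ℝ) ^ (n + 1) < 1 := by
  obtain ⟨hp, hp1⟩ := pow_facts (n + 1)
  constructor <;> linarith

end BGC
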