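import Pool.Agent.Work.MP_76d3fb_an.LimFun

/-! Stage functionals. One stage with weights `a`, `b` from the point `y`: a sample `v` is drawn,
then a point `q` with cost `max (a d(q,y)) (b d(q,v))` is chosen. -/

namespace BGC

open Filter Topology Set

variable {X : Type*} [MetricSpace X]

/-- Inner value of a stage. -/
noncomputable def In (a b : ℝ) (w : X → ℝ) (y v : X) : ℝ :=
  ⨅ q, max (max (a * dist q y) (b * dist q v)) (w q)

/-- One stage. -/
noncomputable def Rg (l : (X → ℝ) → ℝ) (a b : ℝ) (w : X → ℝ) (y : X) : ℝ :=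
  l (fun v => In a b w y v)

/-- A list of stages. -/
noncomputable def RR (l : (X → ℝ) → ℝ) : List (ℝ × ℝ) → (X → ℝ) → X → ℝ
  | [], w => w
  | p :: L, w => Rg l p.1 p.2 (RR l L w)

/-- Chains of error functions ending above the distance to `z`. -/
def Chn (V : Ultrafilter X) (z : X) : List (ℝ × ℝ) → (X → ℝ) → Prop
  | [], m => ∀ q, dist q z ≤ m q
  | p :: L, m => ∃ m' : X → ℝ, (∀ y, ∀ ε > 0, ∀ᶠ v in (V : Filter X), ∀ q,
      m' q ≤ max (max (p.1 * dist q y) (p.2 * dist q v)) (m y) + ε) ∧ Chn V z L m'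

section basic

variable {a b : ℝ}

theorem in_bdd (ha : 0 ≤ a) (w : X → ℝ) (y v : X) :
    BddBelow (range fun q => max (max (a * dist q y) (b * dist q v)) (w q)) := by
  refine ⟨0, ?_⟩
  rintro _ ⟨q, rfl⟩
  exact ((mul_nonneg ha dist_nonneg).trans (le_max_left _ _)).trans (le_max_left _ _)

theorem in_le (ha : 0 ≤ a) (w : X → ℝ) (y v q : X) :
    In a b w y v ≤ max (max (a * dist q y) (b * dist q v)) (w q) :=
  ciInf_le (in_bdd ha w y v) q

theorem le_in [Nonempty X] {w : X → ℝ} {y v : X} {c : ℝ}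
    (h : ∀ q, c ≤ max (max (a * dist q y) (b * dist q v)) (w q)) : c ≤ In a b w y v :=
  le_ciInf h

theorem in_lt [Nonempty X] {w : X → ℝ} {y v : X} {c : ℝ} (h : In a b w y v < c) :
    ∃ q, max (max (a * dist q y) (b * dist q v)) (w q) < c := exists_lt_of_ciInf_lt h

theorem in_nonneg [Nonempty X] (ha : 0 ≤ a) (w : X → ℝ) (y v : X) : 0 ≤ In a b w y v :=
  le_in fun _ => ((mul_nonneg ha dist_nonneg).trans (le_max_left _ _)).trans (le_max_left _ _)

theorem in_lip [Nonempty X] (ha : 0 ≤ a) (hb : 0 ≤ b) (w : X → ℝ) (y y' v v' : X) :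
    In a b w y v ≤ In a b w y' v' + (a * dist y y' + b * dist v v') := by
  rw [← sub_le_iff_le_add]
  refine le_in fun q => ?_
  rw [sub_le_iff_le_add]
  refine (in_le ha w y v q).trans ?_
  have h1 : 0 ≤ a * dist y y' := mul_nonneg ha dist_nonneg
  have h2 : 0 ≤ b * dist v v' := mul_nonneg hb dist_nonneg
  have h3 : a * dist q y ≤ a * dist q y' + a * dist y y' := by
    rw [← mul_add]
    refine mul_le_mul_of_nonneg_left ?_ ha
    rw [dist_comm y y']
    exact dist_triangle q y' y
  have h4 : b * dist q v ≤ b * dist q v' + b * dist v v' := by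
    rw [← mul_add]
    refine mul_le_mul_of_nonneg_left ?_ hb
    rw [dist_comm v v']
    exact dist_triangle q v' v
  have h5 := le_max_left (a * dist q y') (b * dist q v')
  have h6 := le_max_right (a * dist q y') (b * dist q v')
  have h7 := le_max_left (max (a * dist q y') (b * dist q v')) (w q)
  have h8 := le_max_right (max (a * dist q y') (b * dist q v')) (w q)
  refine max_le (max_le ?_ ?_) ?_
  · linarith
  · linarith
  · linarith

theorem in_lp [Nonempty X] (ha : 0 ≤ a) (hb : 0 ≤ b) (w : X → ℝ) (y : X) :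
    Lp (fun v => In a b w y v) :=
  lp_of (C := b) fun v v' => by simpa using in_lip ha hb w y y v v'

theorem in_mono (ha : 0 ≤ a) [Nonempty X] {w w' : X → ℝ} (h : ∀ q, w q ≤ w' q) (y v : X) :
    In a b w y v ≤ In a b w' y v :=
  le_in fun q => (in_le ha w y v q).trans (max_le_max le_rfl (h q))

theorem in_add (ha : 0 ≤ a) [Nonempty X] (w : X → ℝ) (δ : ℝ) (hδ : 0 ≤ δ) (y v : X) :
    In a b (fun q => w q + δ) y v ≤ In a b w y v + δ := by
  rw [← sub_le_iff_le_add]
  refine le_in fun q => ?_
  rw [sub_le_iff_le_add]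
  refine (in_le ha _ y v q).trans (max_le ?_ ?_)
  · have := le_max_left (max (a * dist q y) (b * dist q v)) (w q)
    linarith
  · have := le_max_right (max (a * dist q y) (b * dist q v)) (w q)
    linarith

theorem in_max (ha : 0 ≤ a) [Nonempty X] (w : X → ℝ) (c : ℝ) (y v : X) :
    In a b (fun q => max (w q) c) y v ≤ max (In a b w y v) c := by
  refine le_of_forall_pos_le_add fun ε hε => ?_
  obtain ⟨q, hq⟩ := in_lt (a := a) (b := b) (w := w) (y := y) (v := v)
    (show In a b w y v < In a b w y v + ε by linarith)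
  refine (in_le ha _ y v q).trans ?_
  have h1 := (le_max_left _ _).trans hq.le
  have h2 := (le_max_right _ _).trans hq.le
  have h3 := le_max_left (In a b w y v) c
  have h4 := le_max_right (In a b w y v) c
  exact max_le (by linarith) (max_le (by linarith) (by linarith))

theorem in_avg {A : Sys X} [Nonempty X] (ha : 0 ≤ a) (hb : 0 ≤ b) (n : ℕ) (w : X → ℝ)
    (ws : Fin (n + 1) → X → ℝ)
    (hws : ∀ q : Fin (n + 1) → X, w (A.avg n q) ≤ (∑ i, ws i (q i)) / (n + 1))
    (y : Fin (n + 1) → X) (v : X) :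
    In a b w (A.avg n y) v ≤ (∑ i, In a b (ws i) (y i) v) / (n + 1) := by
  have hn : (0 : ℝ) < n + 1 := by positivity
  refine le_of_forall_pos_le_add fun ε hε => ?_
  have hex : ∀ i, ∃ q, max (max (a * dist q (y i)) (b * dist q v)) (ws i q) <
      In a b (ws i) (y i) v + ε := fun i => in_lt (by linarith)
  choose q hq using hex
  refine (in_le ha w _ v (A.avg n q)).trans ?_
  have h1 : (∑ i, (In a b (ws i) (y i) v + ε)) / (n + 1) =
      (∑ i, In a b (ws i) (y i) v) / (n + 1) + ε := by
    rw [Finset.sum_add_distrib, Finset.sum_const, Finset.card_univ, Fintype.card_fin,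
      nsmul_eq_mul]
    push_cast
    field_simp
  rw [← h1]
  refine max_le (max_le ?_ ?_) ((hws q).trans ?_)
  · have h2 := mul_le_mul_of_nonneg_left (A.avgd n q y) ha
    refine h2.trans ?_
    rw [← mul_div_assoc, Finset.mul_sum]
    gcongr with i
    exact ((le_max_left _ _).trans (le_max_left _ _)).trans (hq i).le
  · have h2 := mul_le_mul_of_nonneg_left (A.dist_avg n q v) hb
    refine h2.trans ?_
    rw [← mul_div_assoc, Finset.mul_sum]
    gcongr with i
    exact ((le_max_right _ _).trans (le_max_left _ _)).trans (hq i).le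
  · gcongr with i
    exact (le_max_right _ _).trans (hq i).le

theorem rg_lp [Nonempty X] {l : (X → ℝ) → ℝ} (hl : l ∈ SX X) (ha : 0 ≤ a) (hb : 0 ≤ b)
    (w : X → ℝ) : Lp (Rg l a b w) := by
  refine lp_of (C := a) fun y y' => ?_
  have h1 : l (fun v => In a b w y v) ≤ l (fun v => In a b w y' v + a * dist y y') :=
    lf_mono hl (in_lp ha hb w y) ((in_lp ha hb w y').add (Lp.const _)) fun v => by
      simpa using in_lip ha hb w y y' v v
  rw [lf_add hl (in_lp ha hb w y') (Lp.const _), lf_const hl] at h1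
  exact h1

theorem rg_nonneg [Nonempty X] {l : (X → ℝ) → ℝ} (hl : l ∈ SX X) (ha : 0 ≤ a) (hb : 0 ≤ b)
    (w : X → ℝ) (y : X) : 0 ≤ Rg l a b w y :=
  lf_ge_const hl (in_lp ha hb w y) fun v => in_nonneg ha w y v

end basic

end BGC
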